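import Pool.Agent.Lib.MP_0087d5_lc.FRC.HXG
import Pool.Agent.Lib.MP_0087d5_lcF.Bord

/-!
# Soundness and the initial border

`exists_pmf_of_det`: a nonsingular skew matrix supported on `G` gives a perfect matching of `G`.
`nullity_le`: the nullity is at most `X.card` if `B[V - X]` is nonsingular.
`exists_start`: bordering a skew matrix by as many dummies as its nullity.
-/

set_option autoImplicit false

namespace Pool.Agent.FRC.Uni

open Finset Matrix Module

section sound

variable {V : Type*} [Fintype V] [DecidableEq V] {R : Type*} [CommRing R]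

/-- **Soundness.** -/
theorem exists_pmf_of_det {G : SimpleGraph V} (b : Matrix V V R) (h0 : ∀ v, b v v = 0)
    (hb : ∀ u v, b u v = - b v u) (hG : ∀ u v, b u v ≠ 0 → G.Adj u v) (hd : b.det ≠ 0) :
    ∃ m : V → V, PMf G m := by
  classical
  rw [det_eq_sum_col b h0 hb] at hd
  obtain ⟨σ, hσ, hne⟩ := Finset.exists_ne_zero_of_sum_ne_zero hd
  have hc : Col σ := by simpa using hσ
  obtain ⟨χ, hχ⟩ := hc
  have hs : ∀ v, b (σ v) v ≠ 0 := by
    intro v hv
    apply hne
    have e : ∏ x, b (σ x) x = 0 := Finset.prod_eq_zero (Finset.mem_univ v) hv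
    rw [e, mul_zero]
  have hm : Mt b (mat σ χ) := mt_mat hb hχ hs
  exact ⟨mat σ χ, hm.invol, fun v => hG _ _ (hm.supp v)⟩

/-- **Soundness**, for subgraphs. -/
theorem exists_pm_of_det {G : SimpleGraph V} (b : Matrix V V R) (h0 : ∀ v, b v v = 0)
    (hb : ∀ u v, b u v = - b v u) (hG : ∀ u v, b u v ≠ 0 → G.Adj u v) (hd : b.det ≠ 0) :
    ∃ M : G.Subgraph, M.IsPerfectMatching := by
  obtain ⟨m, hm⟩ := exists_pmf_of_det b h0 hb hG hd
  exact ⟨sub G m hm, sub_pm hm⟩

end sound

section null

variable {V : Type*} [Fintype V] [DecidableEq V] {K : Type*} [Field K]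

/-- the nullity is at most the size of `X` -/
theorem nullity_le (B : Matrix V V K) (X : Finset V)
    (hX : ∀ x : V → K, (∀ v ∈ X, x v = 0) → (∀ v, v ∉ X → (B.mulVec x) v = 0) → x = 0) :
    finrank K (LinearMap.ker B.mulVecLin) ≤ X.card := by
  let f : LinearMap.ker B.mulVecLin →ₗ[K] (X → K) :=
    { toFun := fun x i => (x : V → K) i.1
      map_add' := fun x y => rfl
      map_smul' := fun a x => rfl }
  have hf : Function.Injective f := by
    rw [← LinearMap.ker_eq_bot, LinearMap.ker_eq_bot']
    intro x hx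
    apply Subtype.ext
    refine hX x.1 (fun v hv => congrFun hx ⟨v, hv⟩) fun v _ => ?_
    have h1 : B.mulVecLin x.1 = 0 := x.2
    rw [Matrix.mulVecLin_apply] at h1
    exact congrFun h1 v
  have h1 := LinearMap.finrank_le_finrank_of_injective hf
  rwa [Module.finrank_fintype_fun_eq_card, Fintype.card_coe] at h1

end null

section ech
variable {K : Type*} [Field K] {n : ℕ}

theorem natDegree_det_le {T R : Type*} [Fintype T] [DecidableEq T] [CommRing R]
    (M : Matrix T T (Polynomial R)) {d : ℕ} (h : ∀ i j, (M i j).natDegree ≤ d) :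
    M.det.natDegree ≤ Fintype.card T * d := by
  rw [Matrix.det_apply]
  refine Polynomial.natDegree_sum_le_of_forall_le _ _ fun σ _ => ?_
  refine (Polynomial.natDegree_smul_le _ _).trans ?_
  refine (Polynomial.natDegree_prod_le _ _).trans ?_
  refine (Finset.sum_le_sum fun i _ => h (σ i) i).trans ?_
  simp

/-- an echelon basis of a subspace -/
theorem exists_echelon (W : Submodule K (Fin n → K)) {k : ℕ} (hk : finrank K W = k) :
    ∃ (q : Fin k → Fin n) (w : Fin k → Fin n → K),
      Function.Injective q ∧ (∀ a, w a ∈ W) ∧ (∀ a, w a (q a) ≠ 0) ∧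
      (∀ a v, v < q a → w a v = 0) ∧ ∀ x ∈ W, ∃ z : Fin k → K, x = ∑ a, z a • w a := by
  subst hk
  classical
  let J : Finset (Fin n) := Finset.univ.filter fun i => ∃ w ∈ W, w i ≠ 0 ∧ ∀ v < i, w v = 0
  have hJ : ∀ i : J, ∃ w ∈ W, w i.1 ≠ 0 ∧ ∀ v < i.1, w v = 0 := fun i =>
    (Finset.mem_filter.1 i.2).2
  choose w hw1 hw2 hw3 using hJ
  -- the family is independent
  have hli : LinearIndependent K (fun i : J => (⟨w i, hw1 i⟩ : W)) := by
    rw [Fintype.linearIndependent_iff]
    intro g hg
    by_contra hc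
    push Not at hc
    have hne : (Finset.univ.filter fun i : J => g i ≠ 0).Nonempty := by
      obtain ⟨i, hi⟩ := hc
      exact ⟨i, by simpa using hi⟩
    obtain ⟨i, hi, hmin⟩ := Finset.exists_min_image _ (fun i : J => i.1) hne
    have h1 := congrArg (fun x : W => (x : Fin n → K) i.1) hg
    simp only [AddSubmonoidClass.coe_finset_sum, SetLike.val_smul, Submodule.coe_zero,
      Finset.sum_apply, Pi.smul_apply, smul_eq_mul, Pi.zero_apply] at h1
    rw [Finset.sum_eq_single i] at h1
    · rcases mul_eq_zero.1 h1 with h2 | h2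
      · exact (Finset.mem_filter.1 hi).2 h2
      · exact hw2 i h2
    · intro j _ hj
      by_cases h2 : g j = 0
      · rw [h2, zero_mul]
      · have h3 := hmin j (Finset.mem_filter.2 ⟨Finset.mem_univ _, h2⟩)
        have h4 : i.1 < j.1 := lt_of_le_of_ne h3 (fun h => hj (Subtype.ext h.symm))
        rw [hw3 j i.1 h4, mul_zero]
    · intro h2
      exact absurd (Finset.mem_univ _) h2
  have hle1 : Fintype.card J ≤ finrank K W := hli.fintype_card_le_finrank
  -- the restriction to the pivots is injective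
  let f : W →ₗ[K] (J → K) :=
    { toFun := fun x i => (x : Fin n → K) i.1
      map_add' := fun x y => rfl
      map_smul' := fun a x => rfl }
  have hf : Function.Injective f := by
    rw [← LinearMap.ker_eq_bot, LinearMap.ker_eq_bot']
    intro x hx
    by_contra hc
    have hne : (Finset.univ.filter fun i : Fin n => (x : Fin n → K) i ≠ 0).Nonempty := by
      by_contra h1
      apply hc
      ext i
      by_contra h2
      exact h1 ⟨i, by simpa using h2⟩
    obtain ⟨i, hi, hmin⟩ := Finset.exists_min_image _ id hne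
    have hi2 := (Finset.mem_filter.1 hi).2
    have hiJ : i ∈ J := by
      refine Finset.mem_filter.2 ⟨Finset.mem_univ _, x.1, x.2, hi2, fun v hv => ?_⟩
      by_contra h1
      exact absurd (hmin v (Finset.mem_filter.2 ⟨Finset.mem_univ _, h1⟩)) (not_le.2 hv)
    have h3 := congrFun hx ⟨i, hiJ⟩
    exact hi2 h3
  have hle2 : finrank K W ≤ Fintype.card J := by
    have := LinearMap.finrank_le_finrank_of_injective hf
    rwa [Module.finrank_fintype_fun_eq_card] at this
  have hcard : Fintype.card J = finrank K W := le_antisymm hle1 hle2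
  let e : Fin (finrank K W) ≃ J := (Fintype.equivFinOfCardEq hcard).symm
  have hspan := hli.span_eq_top_of_card_eq_finrank' hcard
  refine ⟨fun a => (e a).1, fun a => w (e a), ?_, fun a => hw1 _, fun a => hw2 _,
    fun a v hv => hw3 _ v hv, ?_⟩
  · intro a b hab
    exact e.injective (Subtype.ext hab)
  · intro x hx
    have h1 : (⟨x, hx⟩ : W) ∈ Submodule.span K (Set.range fun i : J => (⟨w i, hw1 i⟩ : W)) := by
      rw [hspan]
      exact Submodule.mem_top
    rw [Submodule.mem_span_range_iff_exists_fun] at h1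
    obtain ⟨c, hc⟩ := h1
    refine ⟨fun a => c (e a), ?_⟩
    have h2 := congrArg (fun x : W => (x : Fin n → K)) hc
    simp only [AddSubmonoidClass.coe_finset_sum, SetLike.val_smul] at h2
    rw [← h2, ← Equiv.sum_comp e]

open Polynomial in
/-- the border matrix restricted to an echelon family is nonsingular for some parameter -/
theorem exists_param_ech {k : ℕ} (ν : Fin n → K) (hν : Function.Injective ν) (q : Fin k → Fin n)
    (w : Fin k → Fin n → K) (hq : Function.Injective q) (h1 : ∀ a, w a (q a) ≠ 0)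
    (h2 : ∀ a v, v < q a → w a v = 0) (S : Finset K) (h0 : (0 : K) ∉ S) (hS : k * n < S.card) :
    ∃ t ∈ S, (Matrix.of fun a l : Fin k => ∑ v : Fin n, w a v * (t ^ v.val * ν v ^ l.val)).det ≠ 0 := by
  classical
  let Rm : Matrix (Fin k) (Fin k) K[X] := Matrix.of fun a l =>
    ∑ v : Fin n, C (w a v * ν v ^ l.val) * X ^ (v.val - (q a).val)
  have hdeg : Rm.det.natDegree ≤ k * n := by
    have := natDegree_det_le Rm (d := n) (fun i j => ?_)
    · simpa using this
    · simp only [Rm, Matrix.of_apply]
      refine Polynomial.natDegree_sum_le_of_forall_le _ _ fun v _ => ?_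
      refine (Polynomial.natDegree_C_mul_X_pow_le _ _).trans ?_
      omega
  have hR0 : (Rm.det).eval 0 ≠ 0 := by
    rw [← Polynomial.coe_evalRingHom, RingHom.map_det]
    have e : (Polynomial.evalRingHom (0 : K)).mapMatrix Rm =
        Matrix.of fun a l => w a (q a) * (Matrix.vandermonde fun a => ν (q a)) a l := by
      ext a l
      simp only [RingHom.mapMatrix_apply, Matrix.map_apply, Matrix.of_apply, Rm,
        Polynomial.coe_evalRingHom, Polynomial.eval_finset_sum, Polynomial.eval_mul,
        Polynomial.eval_C, Polynomial.eval_pow, Polynomial.eval_X, Matrix.vandermonde_apply]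
      rw [Finset.sum_eq_single (q a)]
      · rw [Nat.sub_self, pow_zero, mul_one]
      · intro v _ hv
        rcases lt_or_ge v (q a) with h3 | h3
        · rw [h2 a v h3]
          simp
        · have h4 : (q a).val < v.val := lt_of_le_of_ne h3 (fun h => hv (Fin.ext h.symm))
          rw [zero_pow (by omega), mul_zero]
      · intro h3
        exact absurd (Finset.mem_univ _) h3
    rw [e, Matrix.det_mul_column]
    refine mul_ne_zero (Finset.prod_ne_zero_iff.2 fun a _ => h1 a) ?_
    rw [Matrix.det_vandermonde_ne_zero_iff]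
    exact hν.comp hq
  have hRne : Rm.det ≠ 0 := by
    intro hc
    rw [hc, Polynomial.eval_zero] at hR0
    exact hR0 rfl
  obtain ⟨t, htS, ht3⟩ : ∃ t ∈ S, Rm.det.eval t ≠ 0 := by
    by_contra hcon
    push Not at hcon
    have h3 : S ⊆ Rm.det.roots.toFinset := by
      intro t ht
      rw [Multiset.mem_toFinset, Polynomial.mem_roots hRne]
      exact hcon t ht
    have h4 := (Finset.card_le_card h3).trans (Multiset.toFinset_card_le _)
    have h5 := Polynomial.card_roots' Rm.det
    omega
  refine ⟨t, htS, ?_⟩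
  have htK : t ≠ 0 := fun h => h0 (h ▸ htS)
  have e : (Matrix.of fun a l : Fin k => ∑ v : Fin n, w a v * (t ^ v.val * ν v ^ l.val)) =
      Matrix.of fun a l => t ^ (q a).val * ((Polynomial.evalRingHom t).mapMatrix Rm) a l := by
    ext a l
    simp only [RingHom.mapMatrix_apply, Matrix.map_apply, Matrix.of_apply, Rm,
      Polynomial.coe_evalRingHom, Polynomial.eval_finset_sum, Polynomial.eval_mul,
      Polynomial.eval_C, Polynomial.eval_pow, Polynomial.eval_X]
    rw [Finset.mul_sum]
    refine Finset.sum_congr rfl fun v _ => ?_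
    rcases lt_or_ge v (q a) with h3 | h3
    · rw [h2 a v h3]
      simp
    · have h4 : (q a).val ≤ v.val := h3
      have h5 : t ^ v.val = t ^ (q a).val * t ^ (v.val - (q a).val) := by
        rw [← pow_add]
        congr 1
        omega
      rw [h5]
      ring
  rw [e, Matrix.det_mul_column]
  refine mul_ne_zero (Finset.prod_ne_zero_iff.2 fun a _ => pow_ne_zero _ htK) ?_
  rw [← RingHom.map_det]
  exact ht3

end ech

section bord
variable {K : Type*} [Field K] {n : ℕ}

/-- for some parameter `t ∈ S` the border `t ^ v * ν v ^ l`, `l < k`, removes the kernel of `B` -/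
theorem exists_border_inj (B : Matrix (Fin n) (Fin n) K) (hB : Bᵀ = -B) {k : ℕ}
    (hk : finrank K (LinearMap.ker B.mulVecLin) = k) (ν : Fin n → K) (hν : Function.Injective ν)
    (S : Finset K) (h0 : (0 : K) ∉ S) (hS : k * n < S.card) :
    ∃ t ∈ S, ∀ (y : Fin k → K) (x : Fin n → K),
      (∀ v, (B *ᵥ x) v = ∑ l, t ^ v.val * ν v ^ l.val * y l) →
      (∀ l : Fin k, ∑ v, t ^ v.val * ν v ^ l.val * x v = 0) → y = 0 ∧ x = 0 := by
  classical
  obtain ⟨q, w, hq, hw1, hw2, hw3, hw4⟩ := exists_echelon (LinearMap.ker B.mulVecLin) hk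
  obtain ⟨t, htS, ht⟩ := exists_param_ech ν hν q w hq hw2 hw3 S h0 hS
  refine ⟨t, htS, fun y x hx1 hx2 => ?_⟩
  have hwk : ∀ a, B *ᵥ w a = 0 := fun a => by
    have := hw1 a
    rwa [LinearMap.mem_ker, Matrix.mulVecLin_apply] at this
  set P : Matrix (Fin k) (Fin k) K := Matrix.of fun a l : Fin k =>
    ∑ v : Fin n, w a v * (t ^ v.val * ν v ^ l.val) with hP
  have hy0 : y = 0 := by
    refine Matrix.eq_zero_of_mulVec_eq_zero ht ?_
    ext a
    have h3 : w a ⬝ᵥ (B *ᵥ x) = 0 := by
      rw [Matrix.dotProduct_mulVec, ← Matrix.mulVec_transpose, hB, Matrix.neg_mulVec, hwk a,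
        neg_zero, zero_dotProduct]
    rw [Pi.zero_apply, ← h3]
    show ∑ l, P a l * y l = ∑ v, w a v * (B *ᵥ x) v
    simp only [hx1, hP, Matrix.of_apply, Finset.sum_mul, Finset.mul_sum]
    rw [Finset.sum_comm]
    exact Finset.sum_congr rfl fun v _ => Finset.sum_congr rfl fun l _ => by ring
  have hxW : x ∈ LinearMap.ker B.mulVecLin := by
    rw [LinearMap.mem_ker, Matrix.mulVecLin_apply]
    ext v
    rw [hx1, hy0]
    simp
  obtain ⟨c, hc⟩ := hw4 x hxW
  have hc0 : c = 0 := by
    refine Matrix.eq_zero_of_vecMul_eq_zero ht ?_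
    ext l
    have h2 := hx2 l
    rw [Pi.zero_apply, ← h2, hc]
    show ∑ a, c a * P a l = ∑ v, t ^ v.val * ν v ^ l.val * (∑ a, c a • w a) v
    simp only [hP, Matrix.of_apply, Finset.sum_apply, Pi.smul_apply, smul_eq_mul,
      Finset.mul_sum]
    rw [Finset.sum_comm]
    exact Finset.sum_congr rfl fun v _ => Finset.sum_congr rfl fun a _ => by ring
  exact ⟨hy0, by rw [hc, hc0]; simp⟩

end bord

section start

variable {K : Type} [Field K] {n : ℕ} {Dl : Type} [Fintype Dl] [DecidableEq Dl]

open Pool.Agent.FRC in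
/-- **The start.** For some parameter `t ∈ S` the matrix bordered with the dummies `d`, `e d < k`, is nonsingular; here `k` is
the nullity of `B` and `e` is a numbering of the dummies. -/
theorem exists_start (B : Matrix (Fin n) (Fin n) K) (hB : Bᵀ = -B) {k : ℕ}
    (hk : finrank K (LinearMap.ker B.mulVecLin) = k) (ν : Fin n → K) (hν : Function.Injective ν)
    (S : Finset K) (h0 : (0 : K) ∉ S) (hS : k * n < S.card) (e : Dl → ℕ) (he : Function.Injective e)
    (hr : ∀ l < k, ∃ d, e d = l) (J : Finset Dl) (hJ : ∀ d, d ∈ J ↔ e d < k) :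
    ∃ t ∈ S, (bord (Matrix.of fun (d : Dl) (v : Fin n) => t ^ v.val * ν v ^ e d) J B).det ≠ 0 := by
  classical
  obtain ⟨t, htS, ht⟩ := exists_border_inj B hB hk ν hν S h0 hS
  refine ⟨t, htS, fun hdet => ?_⟩
  obtain ⟨z, hz0, hz⟩ := Matrix.exists_mulVec_eq_zero_iff.2 hdet
  apply hz0
  choose dd hdd using hr
  -- the dummies which are off
  have hoff : ∀ d, d ∉ J → z (Sum.inl d) = 0 := by
    intro d hd
    have h1 := congrFun hz (Sum.inl d)
    unfold bord at h1
    simp only [Matrix.mulVec, dotProduct, Fintype.sum_sum_type, Matrix.fromBlocks_apply₁₁,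
      Matrix.fromBlocks_apply₁₂, Matrix.of_apply, if_neg hd, zero_mul, Finset.sum_const_zero,
      add_zero, Pi.zero_apply, Matrix.diagonal_apply] at h1
    rw [Finset.sum_eq_single d] at h1
    · simpa using h1
    · intro d' _ hne
      rw [if_neg (Ne.symm hne), zero_mul]
    · intro h
      exact absurd (Finset.mem_univ _) h
  have hsum : ∀ f : Dl → K, (∀ d, d ∉ J → f d = 0) → ∑ d, f d = ∑ l : Fin k, f (dd l.1 l.2) := by
    intro f hf
    symm
    refine Finset.sum_of_injOn (fun l : Fin k => dd l.1 l.2) ?_ ?_ ?_ ?_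
    · intro a _ b _ hab
      apply Fin.ext
      rw [← hdd a.1 a.2, ← hdd b.1 b.2]
      exact congrArg e hab
    · intro a _
      exact Finset.mem_coe.2 (Finset.mem_univ _)
    · intro d _ hd
      apply hf
      intro hdJ
      have h1 := (hJ d).1 hdJ
      apply hd
      exact ⟨⟨e d, h1⟩, by simp, he (hdd _ _)⟩
    · intro l _
      rfl
  obtain ⟨hy, hx⟩ := ht (fun l => z (Sum.inl (dd l.1 l.2))) (fun v => z (Sum.inr v)) (by
    intro v
    have h1 := congrFun hz (Sum.inr v)
    unfold bord at h1
    simp only [Matrix.mulVec, dotProduct, Fintype.sum_sum_type, Matrix.fromBlocks_apply₂₁,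
      Matrix.fromBlocks_apply₂₂, Matrix.of_apply, Pi.zero_apply] at h1
    rw [hsum _ (fun d hd => by rw [if_neg hd, zero_mul])] at h1
    have h2 : ∀ l : Fin k, (if dd l.1 l.2 ∈ J then -(t ^ v.val * ν v ^ e (dd l.1 l.2)) else 0) *
        z (Sum.inl (dd l.1 l.2)) = - (t ^ v.val * ν v ^ l.val * z (Sum.inl (dd l.1 l.2))) := by
      intro l
      have h3 : dd l.1 l.2 ∈ J := (hJ _).2 (by rw [hdd]; exact l.2)
      rw [if_pos h3, hdd]
      ring
    rw [Finset.sum_congr rfl fun l _ => h2 l, Finset.sum_neg_distrib] at h1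
    have h4 := eq_neg_of_add_eq_zero_right h1
    rw [neg_neg] at h4
    exact h4) (by
    intro l
    have h3 : dd l.1 l.2 ∈ J := (hJ _).2 (by rw [hdd]; exact l.2)
    have h1 := congrFun hz (Sum.inl (dd l.1 l.2))
    unfold bord at h1
    simp only [Matrix.mulVec, dotProduct, Fintype.sum_sum_type, Matrix.fromBlocks_apply₁₁,
      Matrix.fromBlocks_apply₁₂, Matrix.of_apply, if_pos h3, Pi.zero_apply,
      Matrix.diagonal_apply] at h1
    have h5 : ∑ d : Dl, (if dd l.1 l.2 = d then (0 : K) else 0) * z (Sum.inl d) = 0 :=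
      Finset.sum_eq_zero fun d _ => by simp
    rw [h5, zero_add] at h1
    rw [← h1]
    refine Finset.sum_congr rfl fun v _ => ?_
    rw [hdd])
  ext i
  rcases i with d | v
  · by_cases hd : d ∈ J
    · have h1 := (hJ d).1 hd
      have h2 : dd (e d) h1 = d := he (hdd _ _)
      have h3 := congrFun hy ⟨e d, h1⟩
      simp only [h2] at h3
      exact h3
    · exact hoff d hd
  · exact congrFun hx v

end start

end Pool.Agent.FRC.Uni
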