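import Pool.Agent.Lib.MP_0087d5_lc.FRC.Uni

/-!
# Forcing sets of perfect matchings

`PMf G m`: the function `m` is a perfect matching of `G`. `Forc G X m`: `X` is a union of edges of the perfect matching `m`
and `m` is the only perfect matching of `G` which contains these edges.
-/

set_option autoImplicit false

namespace Pool.Agent.FRC.Uni

open Finset

variable {V : Type*} [Fintype V] [DecidableEq V]

/-- `m` is a perfect matching of `G` -/
structure PMf {V : Type*} (G : SimpleGraph V) (m : V → V) : Prop where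
  invol : ∀ v, m (m v) = v
  adj : ∀ v, G.Adj v (m v)

/-- `X` is a union of edges of the perfect matching `m`, and no other perfect matching contains these edges -/
structure Forc {V : Type*} (G : SimpleGraph V) (X : Finset V) (m : V → V) : Prop where
  pm : PMf G m
  mem : ∀ v ∈ X, m v ∈ X
  uniq : ∀ m', PMf G m' → (∀ v ∈ X, m' v = m v) → m' = m

/-- the same with weights: `m` is the only one of least weight among the perfect matchings which contain the edges of `m` on `X` -/
structure ForcW {V : Type*} [Fintype V] (G : SimpleGraph V) (w : V → V → ℕ) (X : Finset V) (m : V → V) : Prop where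
  pm : PMf G m
  mem : ∀ v ∈ X, m v ∈ X
  uniq : ∀ m', PMf G m' → (∀ v ∈ X, m' v = m v) → m' ≠ m → ∑ v, w v (m v) < ∑ v, w v (m' v)

omit [Fintype V] [DecidableEq V] in
theorem PMf.ne {G : SimpleGraph V} {m : V → V} (h : PMf G m) (v : V) : m v ≠ v := (h.adj v).ne'

theorem hX_of_det {K : Type*} [CommRing K] [IsDomain K] (B : Matrix V V K) (X : Finset V)
    (hdet : (B.submatrix (Subtype.val : {v // v ∉ X} → V) Subtype.val).det ≠ 0) (x : V → K)
    (hx : ∀ v ∈ X, x v = 0) (hB : ∀ v, v ∉ X → (B.mulVec x) v = 0) : x = 0 := by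
  have h1 : (B.submatrix (Subtype.val : {v // v ∉ X} → V) (Subtype.val : {v // v ∉ X} → V)).mulVec
      (fun v : {v // v ∉ X} => x v.1) = 0 := by
    ext v
    have h2 := hB v.1 v.2
    simp only [Matrix.mulVec, dotProduct] at h2
    have h3 : ∑ u : {v // v ∉ X}, B v.1 u.1 * x u.1 = 0 := by
      have h4 : ∑ u ∈ univ.filter (fun v => v ∉ X), B v.1 u * x u =
          ∑ u : {v // v ∉ X}, B v.1 u.1 * x u.1 :=
        Finset.sum_subtype (p := fun v => v ∉ X) (univ.filter fun v => v ∉ X) (by simp)
          (fun u => B v.1 u * x u)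
      rw [← h4, ← h2]
      refine Finset.sum_subset (subset_univ _) fun u _ hu => ?_
      have hu' : u ∈ X := by simpa using hu
      rw [hx u hu', mul_zero]
    exact h3
  have h3 := Matrix.eq_zero_of_mulVec_eq_zero hdet h1
  ext v
  by_cases hv : v ∈ X
  · exact hx v hv
  · exact congrFun h3 ⟨v, hv⟩

/-- glue a matching of the complement of `X` to `m` on `X` -/
def glue (X : Finset V) (m : V → V) (m' : {v // v ∉ X} → {v // v ∉ X}) (v : V) : V :=
  if h : v ∈ X then m v else (m' ⟨v, h⟩).1

omit [Fintype V] in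
theorem glue_mem {X : Finset V} {m : V → V} {m' : {v // v ∉ X} → {v // v ∉ X}} {v : V} (h : v ∈ X) :
    glue X m m' v = m v := by
  unfold glue
  rw [dif_pos h]

omit [Fintype V] in
theorem glue_not {X : Finset V} {m : V → V} {m' : {v // v ∉ X} → {v // v ∉ X}} (v : {v // v ∉ X}) :
    glue X m m' v.1 = (m' v).1 := by
  unfold glue
  rw [dif_neg v.2]

/-- the restriction of `m` -/
def rst (X : Finset V) (m : V → V) (h : ∀ v, v ∉ X → m v ∉ X) (v : {v // v ∉ X}) : {v // v ∉ X} :=
  ⟨m v.1, h v.1 v.2⟩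

omit [Fintype V] [DecidableEq V] in
theorem not_mem_of {G : SimpleGraph V} {m : V → V} (hm : PMf G m) {X : Finset V} (hX : ∀ v ∈ X, m v ∈ X)
    (v : V) (hv : v ∉ X) : m v ∉ X := by
  intro h
  have := hX _ h
  rw [hm.invol] at this
  exact hv this

section

variable {R : Type*} [CommRing R] [IsDomain R]

omit [IsDomain R] [Fintype V] in
theorem pmf_glue {G : SimpleGraph V} {b : V → V → R} (hG : ∀ u v, b u v ≠ 0 → G.Adj u v) {m : V → V}
    (hm : PMf G m) {X : Finset V} (hX : ∀ v ∈ X, m v ∈ X) {m' : {v // v ∉ X} → {v // v ∉ X}}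
    (h' : Mt (fun u v : {v // v ∉ X} => b u.1 v.1) m') : PMf G (glue X m m') := by
  refine ⟨fun v => ?_, fun v => ?_⟩
  · by_cases h : v ∈ X
    · rw [glue_mem h, glue_mem (hX v h), hm.invol]
    · rw [glue_not ⟨v, h⟩, glue_not (m' ⟨v, h⟩), h'.invol]
  · by_cases h : v ∈ X
    · rw [glue_mem h]
      exact hm.adj v
    · rw [glue_not ⟨v, h⟩]
      exact hG _ _ (h'.supp ⟨v, h⟩)

omit [IsDomain R] [Fintype V] [DecidableEq V] in
theorem mt_rst {G : SimpleGraph V} {b : V → V → R} (hG : ∀ u v, G.Adj u v → b u v ≠ 0) {m : V → V}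
    (hm : PMf G m) {X : Finset V} (hX : ∀ v ∈ X, m v ∈ X) :
    Mt (fun u v : {v // v ∉ X} => b u.1 v.1) (rst X m (not_mem_of hm hX)) :=
  ⟨fun v => Subtype.ext (hm.invol v.1), fun v h => hm.ne v.1 (congrArg Subtype.val h),
    fun v => hG _ _ (hm.adj v.1)⟩

theorem det_of_forcW {G : SimpleGraph V} (b : V → V → R) (h0 : ∀ v, b v v = 0) (hb : ∀ u v, b u v = - b v u)
    (hG : ∀ u v, b u v ≠ 0 ↔ G.Adj u v) (w : V → V → ℕ) (hw : ∀ u v, w u v = w v u) {X : Finset V}
    {m : V → V} (hF : ForcW G w X m) :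
    ((wm b w).submatrix (Subtype.val : {v // v ∉ X} → V) Subtype.val).det ≠ 0 := by
  have h1 := det_wm_ne_zero (V := {v // v ∉ X}) (fun u v => b u.1 v.1) (fun v => h0 v.1)
    (fun u v => hb u.1 v.1) (fun u v => w u.1 v.1) (fun u v => hw u.1 v.1)
    (mt_rst (fun u v => (hG u v).2) hF.pm hF.mem) (by
      intro m' h' hne
      have h2 : PMf G (glue X m m') := pmf_glue (fun u v => (hG u v).1) hF.pm hF.mem h'
      have h3 : glue X m m' ≠ m := by
        intro e
        apply hne
        funext v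
        apply Subtype.ext
        rw [← glue_not (X := X) (m := m) v, e]
        rfl
      have h4 := hF.uniq _ h2 (fun v hv => glue_mem hv) h3
      have h5 : ∀ f : V → ℕ, ∑ v, f v = ∑ v ∈ X, f v + ∑ v : {v // v ∉ X}, f v.1 := by
        intro f
        rw [← Finset.sum_subtype (univ.filter fun v => v ∉ X) (by simp) f]
        rw [← Finset.sum_filter_add_sum_filter_not univ (fun v => v ∈ X)]
        congr 1
        exact Finset.sum_congr (by ext; simp) fun _ _ => rfl
      rw [h5, h5 (fun v => w v (glue X m m' v))] at h4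
      have h6 : ∑ v ∈ X, w v (glue X m m' v) = ∑ v ∈ X, w v (m v) :=
        Finset.sum_congr rfl fun v hv => by rw [glue_mem hv]
      rw [h6] at h4
      have h7 : ∑ v : {v // v ∉ X}, w v.1 (glue X m m' v.1) = ∑ v : {v // v ∉ X}, w v.1 (m' v).1 :=
        Finset.sum_congr rfl fun v _ => by rw [glue_not v]
      rw [h7] at h4
      exact lt_of_add_lt_add_left h4)
  exact h1

omit [DecidableEq V] in
theorem Forc.forcW {G : SimpleGraph V} {X : Finset V} {m : V → V} (h : Forc G X m) (w : V → V → ℕ) :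
    ForcW G w X m :=
  ⟨h.pm, h.mem, fun m' h1 h2 h3 => absurd (h.uniq m' h1 h2) h3⟩

theorem det_of_forc {G : SimpleGraph V} (b : Matrix V V R) (h0 : ∀ v, b v v = 0)
    (hb : ∀ u v, b u v = - b v u) (hG : ∀ u v, b u v ≠ 0 ↔ G.Adj u v) {X : Finset V} {m : V → V}
    (hF : Forc G X m) : (b.submatrix (Subtype.val : {v // v ∉ X} → V) Subtype.val).det ≠ 0 := by
  have h1 := det_of_forcW b h0 hb hG (fun _ _ => 0) (fun _ _ => rfl) (hF.forcW _)
  have h2 : (wm b (fun _ _ => 0)).submatrix (Subtype.val : {v // v ∉ X} → V) Subtype.val =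
      (Polynomial.C : R →+* Polynomial R).mapMatrix
        (b.submatrix (Subtype.val : {v // v ∉ X} → V) Subtype.val) := by
    ext1 u v
    simp [wm]
  rw [h2, ← RingHom.map_det] at h1
  exact fun h => h1 (by rw [h, map_zero])

/-- **The hypothesis `hX` of the progress lemma, without weights.** -/
theorem hX_of_forc {G : SimpleGraph V} (b : Matrix V V R) (h0 : ∀ v, b v v = 0)
    (hb : ∀ u v, b u v = - b v u) (hG : ∀ u v, b u v ≠ 0 ↔ G.Adj u v) {X : Finset V} {m : V → V}
    (hF : Forc G X m) (x : V → R) (hx : ∀ v ∈ X, x v = 0) (hB : ∀ v, v ∉ X → (b.mulVec x) v = 0) :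
    x = 0 :=
  hX_of_det b X (det_of_forc b h0 hb hG hF) x hx hB

end

/-- **The hypothesis `hX` of the progress lemma, with weights**, over any field `K` which contains the polynomials. -/
theorem hX_of_forcW {F K : Type*} [Field F] [Field K] [Algebra (Polynomial F) K]
    (hinj : Function.Injective (algebraMap (Polynomial F) K)) {G : SimpleGraph V} (b : V → V → F)
    (h0 : ∀ v, b v v = 0) (hb : ∀ u v, b u v = - b v u) (hG : ∀ u v, b u v ≠ 0 ↔ G.Adj u v)
    (w : V → V → ℕ) (hw : ∀ u v, w u v = w v u) {X : Finset V} {m : V → V} (hF : ForcW G w X m)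
    (x : V → K) (hx : ∀ v ∈ X, x v = 0)
    (hB : ∀ v, v ∉ X → (((wm b w).map (algebraMap (Polynomial F) K)).mulVec x) v = 0) : x = 0 := by
  refine hX_of_det _ X ?_ x hx hB
  have h1 := det_of_forcW b h0 hb hG w hw hF
  have h2 : ((wm b w).map (algebraMap (Polynomial F) K)).submatrix
      (Subtype.val : {v // v ∉ X} → V) Subtype.val =
      (algebraMap (Polynomial F) K).mapMatrix
        ((wm b w).submatrix (Subtype.val : {v // v ∉ X} → V) Subtype.val) := rfl
  rw [h2, ← RingHom.map_det]
  exact fun h => h1 (hinj (by rw [h, map_zero]))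

/-! ### Few perfect matchings: small forcing sets -/

open Classical in
omit [DecidableEq V] in
/-- in a nonempty set of at most `2 ^ k` functions one function is determined by at most `k` values -/
theorem exists_det_vals (k : ℕ) : ∀ s : Finset (V → V), s.Nonempty → s.card ≤ 2 ^ k →
    ∃ m ∈ s, ∃ S : Finset V, S.card ≤ k ∧ ∀ m' ∈ s, (∀ v ∈ S, m' v = m v) → m' = m := by
  induction k with
  | zero =>
    intro s hs hc
    obtain ⟨m, hm⟩ := hs
    refine ⟨m, hm, ∅, by simp, fun m' hm' _ => ?_⟩
    have h1 : s.card ≤ 1 := by simpa using hc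
    exact Finset.card_le_one.1 h1 m' hm' m hm
  | succ k ih =>
    intro s hs hc
    by_cases h : ∃ m1 ∈ s, ∃ m2 ∈ s, m1 ≠ m2
    · obtain ⟨m1, hm1, m2, hm2, hne⟩ := h
      obtain ⟨v, hv⟩ : ∃ v, m1 v ≠ m2 v := by
        by_contra hcon
        push Not at hcon
        exact hne (funext hcon)
      have hkey : ∀ a, (∃ m ∈ s, m v = a) → (s.filter fun m => m v = a).card ≤ 2 ^ k →
          ∃ m ∈ s, ∃ S : Finset V, S.card ≤ k + 1 ∧ ∀ m' ∈ s, (∀ v ∈ S, m' v = m v) → m' = m := by
        rintro a ⟨m0, hm0, hm0a⟩ hca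
        obtain ⟨m, hm, S, hS, hu⟩ := ih (s.filter fun m => m v = a)
          ⟨m0, mem_filter.2 ⟨hm0, hm0a⟩⟩ hca
        refine ⟨m, (mem_filter.1 hm).1, insert v S, (card_insert_le _ _).trans (by omega), ?_⟩
        intro m' hm' hval
        refine hu m' (mem_filter.2 ⟨hm', ?_⟩) fun u hu' => hval u (mem_insert_of_mem hu')
        rw [hval v (mem_insert_self _ _)]
        exact (mem_filter.1 hm).2
      have hdis : Disjoint (s.filter fun m => m v = m1 v) (s.filter fun m => m v = m2 v) := by
        rw [Finset.disjoint_left]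
        intro m h1 h2
        exact hv ((mem_filter.1 h1).2.symm.trans (mem_filter.1 h2).2)
      have hsum : (s.filter fun m => m v = m1 v).card + (s.filter fun m => m v = m2 v).card ≤ 2 ^ (k + 1) := by
        rw [← Finset.card_union_of_disjoint hdis]
        refine (Finset.card_le_card ?_).trans hc
        exact Finset.union_subset (filter_subset _ _) (filter_subset _ _)
      rcases Nat.lt_or_ge (2 ^ k) (s.filter fun m => m v = m1 v).card with h1 | h1
      · refine hkey (m2 v) ⟨m2, hm2, rfl⟩ ?_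
        rw [pow_succ] at hsum
        omega
      · exact hkey (m1 v) ⟨m1, hm1, rfl⟩ h1
    · push Not at h
      obtain ⟨m, hm⟩ := hs
      exact ⟨m, hm, ∅, by simp, fun m' hm' _ => h m' hm' m hm⟩

omit [Fintype V] in
/-- a perfect matching determined by its edges at `S` -/
theorem forc_of_vals {G : SimpleGraph V} {m : V → V} (hm : PMf G m) (S : Finset V)
    (hu : ∀ m', PMf G m' → (∀ v ∈ S, m' v = m v) → m' = m) :
    Forc G (S ∪ S.image m) m ∧ (S ∪ S.image m).card ≤ 2 * S.card := by
  refine ⟨⟨hm, fun v hv => ?_, fun m' h' hval => hu m' h' fun v hv => hval v (mem_union_left _ hv)⟩, ?_⟩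
  · rcases mem_union.1 hv with h | h
    · exact mem_union_right _ (mem_image_of_mem m h)
    · obtain ⟨u, hu', rfl⟩ := mem_image.1 h
      rw [hm.invol]
      exact mem_union_left _ hu'
  · have h1 := card_union_le S (S.image m)
    have h2 := card_image_le (s := S) (f := m)
    omega

/-! ### Subgraphs and functions -/

omit [Fintype V] [DecidableEq V] in
/-- the function of a perfect matching -/
theorem exists_fun {G : SimpleGraph V} (M : G.Subgraph) (hM : M.IsPerfectMatching) :
    ∃ m : V → V, PMf G m ∧ ∀ u v, M.Adj u v ↔ m u = v := by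
  have h1 : ∀ v, ∃! u, M.Adj v u := fun v => by
    exact hM.1 (hM.2 v)
  choose m hm hu using h1
  refine ⟨m, ⟨fun v => ?_, fun v => (hm v).adj_sub⟩, fun u v => ⟨fun h => (hu u v h).symm, fun h => h ▸ hm u⟩⟩
  exact (hu (m v) v (hm v).symm).symm

/-- the perfect matching of a function -/
def sub {V : Type*} (G : SimpleGraph V) (m : V → V) (h : PMf G m) : G.Subgraph where
  verts := Set.univ
  Adj u v := m u = v
  adj_sub := by
    intro u v huv
    rw [← huv]
    exact h.adj u
  edge_vert := fun _ => Set.mem_univ _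
  symm := ⟨fun u v huv => by
    rw [← huv]
    exact h.invol u⟩

omit [Fintype V] [DecidableEq V] in
theorem sub_pm {G : SimpleGraph V} {m : V → V} (h : PMf G m) : (sub G m h).IsPerfectMatching := by
  refine ⟨fun v _ => ⟨m v, rfl, fun u hu => ?_⟩, fun v => Set.mem_univ v⟩
  exact Eq.symm hu

omit [Fintype V] [DecidableEq V] in
/-- the functions of perfect matchings and the perfect matchings -/
theorem card_pmf (G : SimpleGraph V) :
    Nat.card {m : V → V // PMf G m} = Nat.card {M : G.Subgraph // M.IsPerfectMatching} := by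
  classical
  refine Nat.card_congr (Equiv.ofBijective (fun m => ⟨sub G m.1 m.2, sub_pm m.2⟩) ⟨?_, ?_⟩)
  · intro m m' h
    apply Subtype.ext
    funext v
    have h1 : sub G m.1 m.2 = sub G m'.1 m'.2 := congrArg Subtype.val h
    have h2 : (sub G m.1 m.2).Adj v (m.1 v) := rfl
    rw [h1] at h2
    exact (show m'.1 v = m.1 v from h2).symm
  · rintro ⟨M, hM⟩
    obtain ⟨m, hm, hadj⟩ := exists_fun M hM
    refine ⟨⟨m, hm⟩, Subtype.ext ?_⟩
    refine SimpleGraph.Subgraph.ext ?_ ?_
    · exact (Set.eq_univ_of_forall hM.2).symm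
    · funext u v
      exact propext (hadj u v).symm

/-- **Few perfect matchings: a small forcing set.** -/
theorem exists_forc_of_card (G : SimpleGraph V) (k : ℕ) (h1 : ∃ M : G.Subgraph, M.IsPerfectMatching)
    (hc : Nat.card {M : G.Subgraph // M.IsPerfectMatching} ≤ 2 ^ k) :
    ∃ (X : Finset V) (m : V → V), Forc G X m ∧ X.card ≤ 2 * k := by
  classical
  obtain ⟨M, hM⟩ := h1
  obtain ⟨m0, hm0, -⟩ := exists_fun M hM
  rw [← card_pmf, Nat.card_eq_fintype_card, Fintype.card_subtype] at hc
  obtain ⟨m, hm, S, hS, hu⟩ := exists_det_vals k (univ.filter fun m => PMf G m)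
    ⟨m0, by simpa using hm0⟩ hc
  obtain ⟨hF, hF2⟩ := forc_of_vals (G := G) (m := m) (by simpa using hm) S fun m' h' hv =>
    hu m' (by simpa using h') hv
  exact ⟨_, m, hF, hF2.trans (by omega)⟩

/-- **A perfect matching with a small forcing set of edges.** -/
theorem exists_forc_of_edges (G : SimpleGraph V) (k : ℕ) (M : G.Subgraph) (hM : M.IsPerfectMatching)
    (T : Set (Sym2 V)) (hT : T ⊆ M.edgeSet) (hk : T.ncard ≤ k)
    (hu : ∀ M' : G.Subgraph, M'.IsPerfectMatching → T ⊆ M'.edgeSet → M' = M) :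
    ∃ (X : Finset V) (m : V → V), Forc G X m ∧ X.card ≤ 2 * k := by
  classical
  obtain ⟨m, hm, hadj⟩ := exists_fun M hM
  obtain ⟨Tf, hTf⟩ : ∃ Tf : Finset (Sym2 V), (Tf : Set (Sym2 V)) = T :=
    ⟨(Set.toFinite T).toFinset, Set.Finite.coe_toFinset _⟩
  rw [← hTf, Set.ncard_coe_finset] at hk
  obtain ⟨S, hS⟩ : ∃ S : Finset V, S = Tf.image fun e => e.out.1 := ⟨_, rfl⟩
  have hSk : S.card ≤ k := by
    rw [hS]
    exact card_image_le.trans hk
  obtain ⟨hF, hF2⟩ := forc_of_vals (G := G) hm S fun m' h' hv => by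
    have h2 : sub G m' h' = M := by
      refine hu _ (sub_pm h') fun e he => ?_
      have he' : e ∈ Tf := by
        rw [← hTf] at he
        exact he
      have h3 : e.out.1 ∈ S := by
        rw [hS]
        exact mem_image_of_mem _ he'
      have h4 : s(e.out.1, e.out.2) = e := by
        exact Quot.out_eq e
      have h5 := hT he
      rw [← h4] at h5 ⊢
      rw [SimpleGraph.Subgraph.mem_edgeSet] at h5 ⊢
      have h6 := (hadj _ _).1 h5
      show m' e.out.1 = e.out.2
      rw [hv _ h3, h6]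
    funext v
    have h7 : (sub G m' h').Adj v (m' v) := rfl
    rw [h2] at h7
    exact ((hadj _ _).1 h7).symm
  exact ⟨_, m, hF, hF2.trans (by omega)⟩

end Pool.Agent.FRC.Uni

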