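import Mathlib

/-!
# The progress lemma

`B` is a skew symmetric matrix with support in the edges of the graph `G`; the bordered matrix
with the border `U` is nonsingular and its inverse has the blocks `0`, `L`, `- Lᵀ`, `R`. The
columns of `L` are the labels of the vertices. `X` is a set of vertices with a perfect matching,
and `B` is nonsingular on the complement of `X`. If the labels are parallel along the edges then
the support of the kernel can be enlarged.
-/

set_option autoImplicit false

namespace Pool.Agent.FRC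

open Finset Matrix

variable {F : Type*} [Field F] {V Dl : Type*}

/-- the support of the kernel: the vertices with a label different from zero -/
def Dom (L : Matrix Dl V F) : Set V := {v | ∃ d, L d v ≠ 0}

/-- the enlarged support -/
def Dom' (G : SimpleGraph V) (R : Matrix V V F) (L : Matrix Dl V F) : Set V :=
  {v | v ∈ Dom L ∨ ∃ d u w, G.Adj u w ∧ R v u * L d w ≠ R v w * L d u}

/-- connected by a walk inside `S` -/
def Conn (G : SimpleGraph V) (S : Set V) : V → V → Prop :=
  Relation.ReflTransGen (fun a b => G.Adj a b ∧ a ∈ S ∧ b ∈ S)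

section Conn

variable {G : SimpleGraph V} {S S' : Set V}

theorem conn_symm {u w : V} (h : Conn G S u w) : Conn G S w u := by
  induction h with
  | refl => exact Relation.ReflTransGen.refl
  | tail _ h ih => exact Relation.ReflTransGen.head ⟨h.1.symm, h.2.2, h.2.1⟩ ih

theorem conn_trans {u w z : V} (h : Conn G S u w) (h' : Conn G S w z) : Conn G S u z :=
  Relation.ReflTransGen.trans h h'

theorem conn_refl (u : V) : Conn G S u u := Relation.ReflTransGen.refl

theorem conn_edge {u w : V} (h : G.Adj u w) (hu : u ∈ S) (hw : w ∈ S) : Conn G S u w :=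
  Relation.ReflTransGen.single ⟨h, hu, hw⟩

theorem conn_mono (hS : S ⊆ S') {u w : V} (h : Conn G S u w) : Conn G S' u w := by
  induction h with
  | refl => exact Relation.ReflTransGen.refl
  | tail _ h ih => exact Relation.ReflTransGen.tail ih ⟨h.1, hS h.2.1, hS h.2.2⟩

theorem conn_mem {u w : V} (h : Conn G S u w) (hu : u ∈ S) : w ∈ S := by
  induction h with
  | refl => exact hu
  | tail _ h _ => exact h.2.2

/-- representatives of the components -/
theorem exists_rep (G : SimpleGraph V) (S : Set V) : ∃ rep : V → V,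
    (∀ u, Conn G S u (rep u)) ∧ ∀ u w, Conn G S u w → rep u = rep w := by
  let s : Setoid V := ⟨Conn G S, ⟨conn_refl, conn_symm, conn_trans⟩⟩
  refine ⟨fun u => (Quotient.mk s u).out, fun u => ?_, fun u w h => ?_⟩
  · exact conn_symm (Quotient.mk_out (s := s) u)
  · exact congrArg Quotient.out (Quotient.sound h)

end Conn

section Par

variable {G : SimpleGraph V} {R : Matrix V V F} {L : Matrix Dl V F}

/-- the labels are parallel on the components -/
theorem par_conn (hpar : ∀ u w, G.Adj u w → ∀ d d', L d u * L d' w = L d' u * L d w) {u w : V}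
    (h : Conn G (Dom L) u w) (d d' : Dl) : L d u * L d' w = L d' u * L d w := by
  induction h generalizing d d' with
  | refl => exact mul_comm _ _
  | @tail b c _ h ih =>
    obtain ⟨e, he⟩ := h.2.1
    have h1 := hpar b c h.1 d d'
    have h2 := ih e d
    have h3 := ih e d'
    refine mul_left_cancel₀ he ?_
    calc L e b * (L d u * L d' c) = (L d u * L e b) * L d' c := by ring
      _ = (L e u * L d b) * L d' c := by rw [h2]
      _ = L e u * (L d b * L d' c) := by ring
      _ = L e u * (L d' b * L d c) := by rw [h1]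
      _ = (L e u * L d' b) * L d c := by ring
      _ = (L d' u * L e b) * L d c := by rw [h3]
      _ = L e b * (L d' u * L d c) := by ring

/-- the coefficients of the labels -/
theorem exists_al (hpar : ∀ u w, G.Adj u w → ∀ d d', L d u * L d' w = L d' u * L d w) :
    ∃ al : V → F, (∀ v ∈ Dom L, al v ≠ 0) ∧
      ∀ u w, Conn G (Dom L) u w → ∀ d, L d u * al w = al u * L d w := by
  classical
  obtain ⟨rep, h1, h2⟩ := exists_rep G (Dom L)
  obtain ⟨al, hal, hal0⟩ : ∃ al : V → F,
      (∀ v (h : ∃ d, L d (rep v) ≠ 0), al v = L h.choose v) ∧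
        ∀ v, (¬ ∃ d, L d (rep v) ≠ 0) → al v = 0 :=
    ⟨fun v => if h : ∃ d, L d (rep v) ≠ 0 then L h.choose v else 0, fun v h => dif_pos h,
      fun v h => dif_neg h⟩
  refine ⟨al, fun v hv => ?_, fun u w huw d => ?_⟩
  · have h3 : rep v ∈ Dom L := conn_mem (h1 v) hv
    have h4 : ∃ d, L d (rep v) ≠ 0 := h3
    rw [hal v h4]
    intro h5
    obtain ⟨d, hd⟩ := hv
    have h6 := par_conn hpar (h1 v) d h4.choose
    rw [h5, zero_mul] at h6
    exact mul_ne_zero hd h4.choose_spec h6
  · have h3 := h2 u w huw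
    by_cases h4 : ∃ d, L d (rep u) ≠ 0
    · have h5 : ∃ d, L d (rep w) ≠ 0 := by
        rw [← h3]
        exact h4
      have h6 : h5.choose = h4.choose := by
        congr 1
        rw [h3]
      rw [hal u h4, hal w h5, h6]
      exact par_conn hpar huw d _
    · have h5 : ¬ ∃ d, L d (rep w) ≠ 0 := by
        rw [← h3]
        exact h4
      rw [hal0 u h4, hal0 w h5, mul_zero, zero_mul]

end Par

section Lin

variable [Fintype V] {G : SimpleGraph V} {B R : Matrix V V F} {L U : Matrix Dl V F}
  {al : V → F}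

omit [Fintype V] in
theorem dom_sub : Dom L ⊆ Dom' G R L := fun _ h => Or.inl h

/-- the image of a vector on a component has its support in the enlarged support -/
theorem supp_R (ha1 : ∀ v ∈ Dom L, al v ≠ 0)
    (ha2 : ∀ u w, Conn G (Dom L) u w → ∀ d, L d u * al w = al u * L d w)
    {u0 : V} (hu0 : u0 ∈ Dom L) {y : V → F} (hy : ∀ v, y v ≠ 0 → Conn G (Dom L) u0 v)
    (hy0 : ∑ v, al v * y v = 0) {v : V} (hv : v ∉ Dom' G R L) : (R *ᵥ y) v = 0 := by
  have h0 : ∀ d u w, G.Adj u w → R v u * L d w = R v w * L d u := by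
    intro d u w h
    by_contra hne
    exact hv (Or.inr ⟨d, u, w, h, hne⟩)
  have h1 : ∀ w, Conn G (Dom L) u0 w → R v u0 * al w = R v w * al u0 := by
    intro w h
    induction h with
    | refl => rfl
    | @tail b c hub h ih =>
      obtain ⟨d, hd⟩ := h.2.1
      have h2 := ha2 b c (conn_edge h.1 h.2.1 h.2.2) d
      have h3 := h0 d b c h.1
      have h4 : R v b * al c = R v c * al b := by
        refine mul_right_cancel₀ hd ?_
        calc R v b * al c * L d b = R v b * (L d b * al c) := by ring
          _ = R v b * (al b * L d c) := by rw [h2]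
          _ = al b * (R v b * L d c) := by ring
          _ = al b * (R v c * L d b) := by rw [h3]
          _ = R v c * al b * L d b := by ring
      refine mul_right_cancel₀ (ha1 b h.2.1) ?_
      calc R v u0 * al c * al b = (R v u0 * al b) * al c := by ring
        _ = (R v b * al u0) * al c := by rw [ih]
        _ = al u0 * (R v b * al c) := by ring
        _ = al u0 * (R v c * al b) := by rw [h4]
        _ = R v c * al u0 * al b := by ring
  refine mul_left_cancel₀ (ha1 u0 hu0) ?_
  rw [mul_zero]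
  calc al u0 * (R *ᵥ y) v = ∑ w, al u0 * (R v w * y w) := by
        unfold mulVec dotProduct
        rw [mul_sum]
    _ = ∑ w, R v u0 * (al w * y w) := by
        refine sum_congr rfl fun w _ => ?_
        by_cases hw : y w = 0
        · rw [hw, mul_zero, mul_zero, mul_zero, mul_zero]
        · have h2 := h1 w (hy w hw)
          calc al u0 * (R v w * y w) = (R v w * al u0) * y w := by ring
            _ = (R v u0 * al w) * y w := by rw [h2]
            _ = R v u0 * (al w * y w) := by ring
    _ = 0 := by rw [← mul_sum, hy0, mul_zero]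

theorem L_zero (ha1 : ∀ v ∈ Dom L, al v ≠ 0)
    (ha2 : ∀ u w, Conn G (Dom L) u w → ∀ d, L d u * al w = al u * L d w)
    {u0 : V} (hu0 : u0 ∈ Dom L) {y : V → F} (hy : ∀ v, y v ≠ 0 → Conn G (Dom L) u0 v)
    (hy0 : ∑ v, al v * y v = 0) : L *ᵥ y = 0 := by
  funext d
  refine mul_left_cancel₀ (ha1 u0 hu0) ?_
  rw [Pi.zero_apply, mul_zero]
  calc al u0 * (L *ᵥ y) d = ∑ w, al u0 * (L d w * y w) := by
        unfold mulVec dotProduct
        rw [mul_sum]
    _ = ∑ w, L d u0 * (al w * y w) := by
        refine sum_congr rfl fun w _ => ?_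
        by_cases hw : y w = 0
        · rw [hw, mul_zero, mul_zero, mul_zero, mul_zero]
        · have h2 := ha2 u0 w (hy w hw) d
          calc al u0 * (L d w * y w) = (al u0 * L d w) * y w := by ring
            _ = (L d u0 * al w) * y w := by rw [h2]
            _ = L d u0 * (al w * y w) := by ring
    _ = 0 := by rw [← mul_sum, hy0, mul_zero]

theorem BR_eq [DecidableEq V] [Fintype Dl] (hBR : B * R = 1 + Uᵀ * L) {y : V → F}
    (hy : L *ᵥ y = 0) : B *ᵥ (R *ᵥ y) = y := by
  rw [mulVec_mulVec, hBR, add_mulVec, one_mulVec, ← mulVec_mulVec, hy, mulVec_zero, add_zero]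

/-- vectors on different components are orthogonal -/
theorem orth (hB : Bᵀ = -B) (hG : ∀ u v, B u v ≠ 0 → G.Adj u v) {D' : Set V}
    {u0 u1 : V} (hne : ¬ Conn G D' u0 u1) {y y' : V → F}
    (hy : ∀ v, y v ≠ 0 → v ∈ D' ∧ Conn G D' u0 v) (hy' : ∀ v, y' v ≠ 0 → Conn G D' u1 v)
    (hq : ∀ v, v ∉ D' → (R *ᵥ y) v = 0) (hq' : ∀ v, v ∉ D' → (R *ᵥ y') v = 0)
    (hBq : B *ᵥ (R *ᵥ y) = y) (hBq' : B *ᵥ (R *ᵥ y') = y') : y ⬝ᵥ (R *ᵥ y') = 0 := by
  classical
  set q := R *ᵥ y with hqd
  set q' := R *ᵥ y' with hqd'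
  set r : V → F := fun v => if v ∈ D' ∧ Conn G D' u0 v then q' v else 0 with hr
  have h1 : y ⬝ᵥ q' = y ⬝ᵥ r := by
    unfold dotProduct
    refine sum_congr rfl fun v _ => ?_
    by_cases hv : y v = 0
    · rw [hv, zero_mul, zero_mul]
    · rw [hr]
      change y v * q' v = y v * (if v ∈ D' ∧ Conn G D' u0 v then q' v else 0)
      rw [if_pos (hy v hv)]
  have hBz : ∀ w v, ¬ G.Adj w v → B w v = 0 := by
    intro w v h
    by_contra hne'
    exact h (hG w v hne')
  have h2 : ∀ w, q w * (B *ᵥ r) w = 0 := by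
    intro w
    by_cases hw : w ∈ D'
    · by_cases hw' : Conn G D' u0 w
      · have h3 : (B *ᵥ r) w = (B *ᵥ q') w := by
          unfold mulVec dotProduct
          refine sum_congr rfl fun v _ => ?_
          change B w v * (if v ∈ D' ∧ Conn G D' u0 v then q' v else 0) = B w v * q' v
          by_cases hv : v ∈ D' ∧ Conn G D' u0 v
          · rw [if_pos hv]
          · rw [if_neg hv, mul_zero]
            by_cases hv' : v ∈ D'
            · rw [hBz w v fun h => hv ⟨hv', conn_trans hw' (conn_edge h hw hv')⟩, zero_mul]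
            · rw [hq' v hv', mul_zero]
        have h4 : y' w = 0 := by
          by_contra hne'
          exact hne (conn_trans hw' (conn_symm (hy' w hne')))
        rw [h3, hBq', h4, mul_zero]
      · have h3 : (B *ᵥ r) w = 0 := by
          unfold mulVec dotProduct
          refine sum_eq_zero fun v _ => ?_
          change B w v * (if v ∈ D' ∧ Conn G D' u0 v then q' v else 0) = 0
          by_cases hv : v ∈ D' ∧ Conn G D' u0 v
          · rw [hBz w v fun h => hw' (conn_trans hv.2 (conn_edge h.symm hv.1 hw)), zero_mul]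
          · rw [if_neg hv, mul_zero]
        rw [h3, mul_zero]
    · rw [hq w hw, zero_mul]
  rw [h1, ← hBq]
  have h3 : (B *ᵥ q) ⬝ᵥ r = - (q ⬝ᵥ (B *ᵥ r)) := by
    rw [dotProduct_comm, dotProduct_mulVec, ← mulVec_transpose, hB, neg_mulVec,
      neg_dotProduct, dotProduct_comm]
  rw [h3, neg_eq_zero]
  exact sum_eq_zero fun w _ => h2 w

end Lin

section Iso

variable [Fintype V] [DecidableEq V] {R : Matrix V V F}

omit [DecidableEq V] in
theorem skew_dot (hR : Rᵀ = -R) (x y : V → F) : x ⬝ᵥ (R *ᵥ y) = - (y ⬝ᵥ (R *ᵥ x)) := by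
  rw [dotProduct_mulVec, ← mulVec_transpose, hR, neg_mulVec, neg_dotProduct, dotProduct_comm]

/-- a skew form on a space of odd dimension is degenerate -/
theorem exists_iso (h2 : (2 : F) ≠ 0) (hR : Rᵀ = -R) {al : V → F} {S : Finset V}
    (hS : Even S.card) {u0 : V} (hu0 : u0 ∈ S) (hal : al u0 ≠ 0) :
    ∃ y : V → F, y ≠ 0 ∧ (∀ v, y v ≠ 0 → v ∈ S) ∧ ∑ v, al v * y v = 0 ∧
      ∀ y' : V → F, (∀ v, y' v ≠ 0 → v ∈ S) → ∑ v, al v * y' v = 0 → y' ⬝ᵥ (R *ᵥ y) = 0 := by
  set T : Finset V := S.erase u0 with hT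
  have hTc : Odd T.card := by
    have h3 : T.card + 1 = S.card := card_erase_add_one hu0
    rw [← h3] at hS
    exact Nat.not_even_iff_odd.1 (Nat.even_add_one.1 hS)
  set b : V → V → F := fun u => Pi.single u (al u0) - Pi.single u0 (al u) with hb
  set M : Matrix T T F := fun u w => b u ⬝ᵥ (R *ᵥ b w) with hM
  have hMt : Mᵀ = -M := by
    ext u w
    rw [transpose_apply, neg_apply]
    exact skew_dot hR _ _
  have hdet : M.det = 0 := by
    have h3 : M.det = - M.det := by
      calc M.det = Mᵀ.det := (det_transpose M).symm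
        _ = (-M).det := by rw [hMt]
        _ = (-1) ^ Fintype.card T * M.det := det_neg M
        _ = - M.det := by
            rw [Fintype.card_coe, hTc.neg_one_pow, neg_one_mul]
    have h4 : 2 * M.det = 0 := by
      rw [two_mul]
      nth_rewrite 1 [h3]
      rw [neg_add_cancel]
    exact (mul_eq_zero.1 h4).resolve_left h2
  obtain ⟨c, hc, hMc⟩ := exists_mulVec_eq_zero_iff.2 hdet
  have hbv : ∀ u : T, ∀ v, v ≠ u0 → b u v = if v = u then al u0 else 0 := by
    intro u v hv
    rw [hb]
    change (Pi.single (u : V) (al u0) : V → F) v - (Pi.single u0 (al u) : V → F) v = _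
    rw [Pi.single_apply, Pi.single_apply, if_neg hv, sub_zero]
  have hb0 : ∀ u : T, b u u0 = - al u := by
    intro u
    rw [hb]
    change (Pi.single (u : V) (al u0) : V → F) u0 - (Pi.single u0 (al u) : V → F) u0 = _
    rw [Pi.single_apply, Pi.single_apply, if_pos rfl, if_neg, zero_sub]
    intro h3
    have h4 := u.2
    rw [← h3, hT] at h4
    exact notMem_erase _ _ h4
  have hbal : ∀ u : T, ∑ v, al v * b u v = 0 := by
    intro u
    rw [hb]
    change ∑ v, al v * ((Pi.single (u : V) (al u0) : V → F) v -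
      (Pi.single u0 (al u) : V → F) v) = 0
    simp_rw [mul_sub, sum_sub_distrib, Pi.single_apply, mul_ite, mul_zero]
    rw [sum_ite_eq' univ (u : V), sum_ite_eq' univ u0, if_pos (mem_univ _), if_pos (mem_univ _)]
    ring
  refine ⟨∑ w : T, c w • b w, ?_, ?_, ?_, ?_⟩
  · intro h3
    obtain ⟨w, hw⟩ : ∃ w, c w ≠ 0 := by
      by_contra h4
      push Not at h4
      exact hc (funext h4)
    have hw0 : (w : V) ≠ u0 := (mem_erase.1 w.2).1
    have h4 : (∑ w : T, c w • b w) (w : V) = c w * al u0 := by
      rw [Finset.sum_apply]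
      rw [sum_eq_single w]
      · rw [Pi.smul_apply, smul_eq_mul, hbv w w hw0, if_pos rfl]
      · intro w' _ hne
        rw [Pi.smul_apply, smul_eq_mul, hbv w' w hw0, if_neg, mul_zero]
        exact fun h5 => hne (Subtype.ext h5.symm)
      · exact fun h5 => absurd (mem_univ _) h5
    rw [h3, Pi.zero_apply] at h4
    exact mul_ne_zero hw hal h4.symm
  · intro v hv
    by_contra hvS
    apply hv
    rw [Finset.sum_apply]
    refine sum_eq_zero fun w _ => ?_
    have hv0 : v ≠ u0 := fun h3 => hvS (h3 ▸ hu0)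
    rw [Pi.smul_apply, smul_eq_mul, hbv w v hv0, if_neg, mul_zero]
    exact fun h3 => hvS (h3 ▸ (mem_erase.1 w.2).2)
  · simp_rw [Finset.sum_apply, Pi.smul_apply, smul_eq_mul, mul_sum]
    rw [sum_comm]
    refine sum_eq_zero fun w _ => ?_
    calc ∑ v, al v * (c w * b w v) = c w * ∑ v, al v * b w v := by
          rw [mul_sum]
          exact sum_congr rfl fun v _ => by ring
      _ = 0 := by rw [hbal w, mul_zero]
  · intro y' hy' hy0
    have hex : al u0 • y' = ∑ u : T, y' u • b u := by
      funext v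
      rw [Pi.smul_apply, smul_eq_mul, Finset.sum_apply]
      by_cases hv0 : v = u0
      · subst hv0
        have h3 : ∑ u : T, (y' u • b u) v = - ∑ u ∈ T, al u * y' u := by
          rw [← sum_coe_sort T, ← sum_neg_distrib]
          refine sum_congr rfl fun u _ => ?_
          rw [Pi.smul_apply, smul_eq_mul, hb0 u]
          ring
        have h4 : ∑ u, al u * y' u = al v * y' v + ∑ u ∈ T, al u * y' u := by
          have h5 : ∑ u ∈ S, al u * y' u = ∑ u, al u * y' u := by
            refine sum_subset (subset_univ _) fun u _ hu => ?_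
            have h6 : y' u = 0 := by
              by_contra h7
              exact hu (hy' u h7)
            rw [h6, mul_zero]
          rw [← h5, hT]
          exact (add_sum_erase S (fun u => al u * y' u) hu0).symm
        rw [h3]
        rw [hy0] at h4
        exact eq_neg_of_add_eq_zero_left h4.symm
      · by_cases hv : v ∈ S
        · have hvT : v ∈ T := mem_erase.2 ⟨hv0, hv⟩
          rw [sum_eq_single (⟨v, hvT⟩ : T)]
          · rw [Pi.smul_apply, smul_eq_mul, hbv _ v hv0, if_pos rfl, mul_comm]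
          · intro w' _ hne
            rw [Pi.smul_apply, smul_eq_mul, hbv w' v hv0, if_neg, mul_zero]
            exact fun h5 => hne (Subtype.ext h5.symm)
          · exact fun h5 => absurd (mem_univ _) h5
        · have h6 : y' v = 0 := by
            by_contra h7
            exact hv (hy' v h7)
          rw [h6, mul_zero]
          refine (sum_eq_zero fun w _ => ?_).symm
          rw [Pi.smul_apply, smul_eq_mul, hbv w v hv0, if_neg, mul_zero]
          exact fun h3 => hv (h3 ▸ (mem_erase.1 w.2).2)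
    refine mul_left_cancel₀ hal ?_
    rw [mul_zero, ← smul_eq_mul, ← smul_dotProduct, hex, sum_dotProduct]
    refine sum_eq_zero fun u _ => ?_
    have h3 : b u ⬝ᵥ (R *ᵥ ∑ w : T, c w • b w) = (M *ᵥ c) u := by
      rw [mulVec_sum, dotProduct_sum]
      change _ = ∑ w, M u w * c w
      refine sum_congr rfl fun w _ => ?_
      rw [mulVec_smul, dotProduct_smul, smul_eq_mul, mul_comm]
    rw [smul_dotProduct, h3, hMc, Pi.zero_apply, smul_zero]

end Iso

section Main

variable [Fintype V] [DecidableEq V] [Fintype Dl] [DecidableEq Dl] [Nonempty Dl]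
  {G : SimpleGraph V} {B R : Matrix V V F} {L U : Matrix Dl V F}

omit [Fintype V] [DecidableEq V] in
/-- a set with a fixed point free involution is even -/
theorem even_of_mate {S : Finset V} {mate : V → V}
    (h : ∀ v ∈ S, mate v ∈ S ∧ mate v ≠ v ∧ mate (mate v) = v) : Even S.card := by
  have h1 : ∑ v ∈ S, (1 : ZMod 2) = 0 :=
    sum_involution (fun v _ => mate v) (fun v _ => by decide) (fun v hv _ => (h v hv).2.1)
      (fun v hv => (h v hv).1) (fun v hv => (h v hv).2.2)
  rw [sum_const, nsmul_eq_mul, mul_one] at h1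
  exact (ZMod.natCast_eq_zero_iff_even).1 h1

/-- THE PROGRESS LEMMA -/
theorem progress (h2 : (2 : F) ≠ 0) (hB : Bᵀ = -B) (hG : ∀ u v, B u v ≠ 0 → G.Adj u v)
    (hR : Rᵀ = -R) (hBL : B * Lᵀ = 0) (hBR : B * R = 1 + Uᵀ * L) (hUL : U * Lᵀ = -1)
    (hpar : ∀ u w, G.Adj u w → ∀ d d', L d u * L d' w = L d' u * L d w)
    (X : Finset V) (mate : V → V)
    (hm : ∀ v ∈ X, mate v ∈ X ∧ G.Adj v (mate v) ∧ mate (mate v) = v)
    (hX : ∀ x : V → F, (∀ v ∈ X, x v = 0) → (∀ v, v ∉ X → (B *ᵥ x) v = 0) → x = 0) :
    (∃ v ∈ X, v ∈ Dom' G R L ∧ v ∉ Dom L) ∨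
      ∃ u ∈ X, ∃ v ∈ X, u ∈ Dom L ∧ v ∈ Dom L ∧ ¬ Conn G (Dom L) u v ∧
        Conn G (Dom' G R L) u v := by
  classical
  by_contra hcon
  have hn1 : ∀ v ∈ X, v ∉ Dom L → v ∉ Dom' G R L := by
    intro v hv h3 h4
    exact hcon (Or.inl ⟨v, hv, h4, h3⟩)
  have hn2 : ∀ u ∈ X, ∀ v ∈ X, u ∈ Dom L → v ∈ Dom L → Conn G (Dom' G R L) u v →
      Conn G (Dom L) u v := by
    intro u hu v hv h3 h4 h5
    by_contra h6
    exact hcon (Or.inr ⟨u, hu, v, hv, h3, h4, h6, h5⟩)
  obtain ⟨al, ha1, ha2⟩ := exists_al hpar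
  obtain ⟨rep, hr1, hr2⟩ := exists_rep G (Dom L)
  set XD : Finset V := X.filter (fun v => v ∈ Dom L) with hXD
  set A : Finset V := X.filter (fun v => v ∉ Dom L ∧ ∃ w ∈ Dom L, G.Adj v w) with hA
  set I : Finset V := XD.image rep with hI
  set cls : V → Finset V := fun i => XD.filter (fun v => rep v = i) with hcls
  have hcm : ∀ i v, v ∈ cls i ↔ v ∈ X ∧ v ∈ Dom L ∧ rep v = i := by
    intro i v
    rw [hcls]
    change v ∈ XD.filter (fun v => rep v = i) ↔ _
    rw [mem_filter, hXD, mem_filter, and_assoc]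
  have hex : ∀ i ∈ I, ∃ v, v ∈ cls i := by
    intro i hi
    obtain ⟨v, hv, hvi⟩ := mem_image.1 hi
    have h3 := mem_filter.1 hv
    exact ⟨v, (hcm i v).2 ⟨h3.1, h3.2, hvi⟩⟩
  choose! ρ hρ using hex
  have hconn : ∀ i u v, u ∈ cls i → v ∈ cls i → Conn G (Dom L) u v := by
    intro i u v hu hv
    have h3 := (hcm i u).1 hu
    have h4 := (hcm i v).1 hv
    have h5 := hr1 u
    have h6 := hr1 v
    rw [h3.2.2] at h5
    rw [h4.2.2] at h6
    exact conn_trans h5 (conn_symm h6)
  -- vectors on a class
  have hgen : ∀ i ∈ I, ∀ y : V → F, (∀ v, y v ≠ 0 → v ∈ cls i) → ∑ v, al v * y v = 0 →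
      (∀ v, v ∉ Dom' G R L → (R *ᵥ y) v = 0) ∧ L *ᵥ y = 0 ∧ B *ᵥ (R *ᵥ y) = y := by
    intro i hi y hy hy0
    have h3 := (hcm i (ρ i)).1 (hρ i hi)
    have h4 : ∀ v, y v ≠ 0 → Conn G (Dom L) (ρ i) v := fun v hv =>
      hconn i _ _ (hρ i hi) (hy v hv)
    have h5 := L_zero ha1 ha2 h3.2.1 h4 hy0
    exact ⟨fun v hv => supp_R ha1 ha2 h3.2.1 h4 hy0 hv, h5, BR_eq hBR h5⟩
  set Ie : Finset V := I.filter (fun i => Even (cls i).card) with hIe
  set Io : Finset V := I.filter (fun i => ¬ Even (cls i).card) with hIo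
  have hys : ∀ i ∈ Ie, ∃ y : V → F, y ≠ 0 ∧ (∀ v, y v ≠ 0 → v ∈ cls i) ∧
      ∑ v, al v * y v = 0 ∧ ∀ y' : V → F, (∀ v, y' v ≠ 0 → v ∈ cls i) →
        ∑ v, al v * y' v = 0 → y' ⬝ᵥ (R *ᵥ y) = 0 := by
    intro i hi
    have h3 := mem_filter.1 hi
    exact exists_iso h2 hR h3.2 (hρ i h3.1) (ha1 _ ((hcm i _).1 (hρ i h3.1)).2.1)
  choose! ys hy1 hy2 hy3 hy4 using hys
  -- the odd classes
  have hodd : Io.card ≤ A.card := by
    have h3 : ∀ i ∈ Io, ∃ v ∈ cls i, mate v ∉ cls i := by
      intro i hi
      by_contra h4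
      push Not at h4
      refine (mem_filter.1 hi).2 (even_of_mate (mate := mate) fun v hv => ?_)
      have h5 := (hcm i v).1 hv
      have h6 := hm v h5.1
      exact ⟨h4 v hv, h6.2.1.ne', h6.2.2⟩
    choose! τ hτ1 hτ2 using h3
    refine card_le_card_of_injOn (fun i => mate (τ i)) (fun i hi => ?_) ?_
    · have h4 := (hcm i _).1 (hτ1 i hi)
      have h5 := hm _ h4.1
      refine mem_filter.2 ⟨h5.1, fun h6 => ?_, τ i, h4.2.1, h5.2.1.symm⟩
      refine hτ2 i hi ((hcm i _).2 ⟨h5.1, h6, ?_⟩)
      exact (hr2 _ _ (conn_edge h5.2.1 h4.2.1 h6)).symm.trans h4.2.2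
    · intro i hi j hj hij
      have h4 := (hcm i _).1 (hτ1 i hi)
      have h5 := (hcm j _).1 (hτ1 j hj)
      have h6 : τ i = τ j := by
        rw [← (hm _ h4.1).2.2, ← (hm _ h5.1).2.2]
        exact congrArg mate hij
      rw [← h4.2.2, ← h5.2.2, h6]
  -- the neighbours of the kernel
  have hAR : ∀ a ∈ A, ∀ v, v ∉ Dom' G R L → R v a = 0 := by
    intro a ha v hv
    obtain ⟨w, ⟨d, hd⟩, haw⟩ := (mem_filter.1 ha).2.2
    have h3 : L d a = 0 := by
      by_contra h4
      exact (mem_filter.1 ha).2.1 ⟨d, h4⟩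
    have h4 : R v a * L d w = R v w * L d a := by
      by_contra hne
      exact hv (Or.inr ⟨d, a, w, haw, hne⟩)
    rw [h3, mul_zero] at h4
    exact (mul_eq_zero.1 h4).resolve_right hd
  have hdot : ∀ (w : V → F) (a : V), w ⬝ᵥ Pi.single a 1 = w a := by
    intro w a
    rw [dotProduct_single, mul_one]
  have hRs : ∀ (a v : V), (R *ᵥ Pi.single a 1) v = R v a := by
    intro a v
    rw [mulVec_single_one]
    rfl
  -- the vectors
  set g : Dl ⊕ A ⊕ Ie → V → F := fun j => match j with
    | Sum.inl d => fun v => L d v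
    | Sum.inr (Sum.inl a) => R *ᵥ Pi.single (a : V) 1
    | Sum.inr (Sum.inr i) => R *ᵥ ys i with hg
  have hli : LinearIndependent F (fun j : Dl ⊕ A ⊕ Ie => fun i : I => g j (ρ i)) := by
    rw [Fintype.linearIndependent_iff]
    intro c hc
    set t : Dl → F := fun d => c (Sum.inl d) with ht
    set z : V → F := ∑ a : A, c (Sum.inr (Sum.inl a)) • (Pi.single (a : V) 1 : V → F) +
      ∑ i : Ie, c (Sum.inr (Sum.inr i)) • ys i with hz
    set x : V → F := ∑ j, c j • g j with hx
    have hxρ : ∀ i ∈ I, x (ρ i) = 0 := by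
      intro i hi
      have h3 := congrFun hc ⟨i, hi⟩
      rw [Finset.sum_apply] at h3
      rw [hx, Finset.sum_apply]
      exact h3
    -- the members vanish on X outside of the domain
    have hgz : ∀ j, ∀ v ∈ X, v ∉ Dom L → g j v = 0 := by
      intro j v hv hvD
      have hvD' := hn1 v hv hvD
      rcases j with d | a | i
      · change L d v = 0
        by_contra h4
        exact hvD ⟨d, h4⟩
      · change (R *ᵥ Pi.single (a : V) 1) v = 0
        rw [hRs]
        exact hAR a a.2 v hvD'
      · change (R *ᵥ ys i) v = 0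
        exact (hgen i (mem_filter.1 i.2).1 _ (hy2 i i.2) (hy3 i i.2)).1 v hvD'
    -- the members are orthogonal to the vectors on the classes
    have hgo : ∀ j, ∀ l ∈ I, ∀ y : V → F, (∀ v, y v ≠ 0 → v ∈ cls l) →
        ∑ v, al v * y v = 0 → y ⬝ᵥ g j = 0 := by
      intro j l hl y hy hy0
      obtain ⟨h3, h4, h5⟩ := hgen l hl y hy hy0
      rcases j with d | a | i
      · change y ⬝ᵥ L d = 0
        rw [dotProduct_comm]
        exact congrFun h4 d
      · change y ⬝ᵥ (R *ᵥ Pi.single (a : V) 1) = 0
        rw [skew_dot hR, dotProduct_comm, hdot, h3, neg_zero]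
        exact hn1 a (mem_filter.1 a.2).1 (mem_filter.1 a.2).2.1
      · change y ⬝ᵥ (R *ᵥ ys i) = 0
        by_cases hil : (i : V) = l
        · refine hy4 i i.2 y ?_ hy0
          rw [hil]
          exact hy
        · have hiI := (mem_filter.1 i.2).1
          obtain ⟨h6, h7, h8⟩ := hgen i hiI (ys i) (hy2 i i.2) (hy3 i i.2)
          have h9 := (hcm l _).1 (hρ l hl)
          have h10 := (hcm i _).1 (hρ i hiI)
          refine orth (u0 := ρ l) (u1 := ρ i) hB hG (D' := Dom' G R L) ?_ ?_ ?_ h3 h6 h5 h8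
          · intro h11
            have h12 := hr2 _ _ (hn2 _ h9.1 _ h10.1 h9.2.1 h10.2.1 h11)
            rw [h9.2.2, h10.2.2] at h12
            exact hil h12.symm
          · intro v hv
            exact ⟨dom_sub ((hcm l v).1 (hy v hv)).2.1,
              conn_mono dom_sub (hconn l _ _ (hρ l hl) (hy v hv))⟩
          · intro v hv
            exact conn_mono dom_sub (hconn i _ _ (hρ i hiI) (hy2 i i.2 v hv))
    have hxo : ∀ l ∈ I, ∀ y : V → F, (∀ v, y v ≠ 0 → v ∈ cls l) →
        ∑ v, al v * y v = 0 → y ⬝ᵥ x = 0 := by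
      intro l hl y hy hy0
      rw [hx, dotProduct_sum]
      refine sum_eq_zero fun j _ => ?_
      rw [dotProduct_smul, hgo j l hl y hy hy0, smul_zero]
    have hxX : ∀ v ∈ X, x v = 0 := by
      intro v hv
      by_cases hvD : v ∈ Dom L
      · have hiI : rep v ∈ I := mem_image.2 ⟨v, mem_filter.2 ⟨hv, hvD⟩, rfl⟩
        have hvc : v ∈ cls (rep v) := (hcm _ _).2 ⟨hv, hvD, rfl⟩
        have h3 := (hcm (rep v) _).1 (hρ (rep v) hiI)
        set u := ρ (rep v) with hu
        have h4 := hxo (rep v) hiI (al u • Pi.single v 1 - al v • Pi.single u 1) (by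
          intro w hw
          by_cases hwv : w = v
          · rw [hwv]
            exact hvc
          · by_cases hwu : w = u
            · rw [hwu]
              exact hρ (rep v) hiI
            · exfalso
              apply hw
              rw [Pi.sub_apply, Pi.smul_apply, Pi.smul_apply, Pi.single_apply,
                Pi.single_apply, if_neg hwv, if_neg hwu, smul_zero, smul_zero, sub_zero]) (by
          change al ⬝ᵥ (al u • Pi.single v 1 - al v • Pi.single u 1) = 0
          rw [dotProduct_sub, dotProduct_smul, dotProduct_smul, hdot, hdot, smul_eq_mul,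
            smul_eq_mul, mul_comm, sub_self])
        rw [dotProduct_comm, dotProduct_sub, dotProduct_smul, dotProduct_smul, hdot, hdot,
          hxρ (rep v) hiI, smul_zero, sub_zero, smul_eq_mul] at h4
        exact (mul_eq_zero.1 h4).resolve_left (ha1 u h3.2.1)
      · rw [hx, Finset.sum_apply]
        refine sum_eq_zero fun j _ => ?_
        rw [Pi.smul_apply, hgz j v hv hvD, smul_zero]
    have hxz : x = Lᵀ *ᵥ t + R *ᵥ z := by
      rw [hx, Fintype.sum_sum_type, Fintype.sum_sum_type, hz, mulVec_add, mulVec_sum,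
        mulVec_sum]
      refine congrArg₂ (· + ·) ?_ (congrArg₂ (· + ·) ?_ ?_)
      · funext v
        rw [Finset.sum_apply]
        unfold mulVec dotProduct
        refine sum_congr rfl fun d _ => ?_
        rw [Pi.smul_apply, smul_eq_mul, mul_comm]
        rfl
      · refine sum_congr rfl fun a _ => ?_
        rw [mulVec_smul]
      · refine sum_congr rfl fun i _ => ?_
        rw [mulVec_smul]
    have hLz : L *ᵥ z = 0 := by
      rw [hz, mulVec_add, mulVec_sum, mulVec_sum]
      have h3 : ∑ a : A, L *ᵥ (c (Sum.inr (Sum.inl a)) • (Pi.single (a : V) 1 : V → F)) = 0 := by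
        refine sum_eq_zero fun a _ => ?_
        rw [mulVec_smul]
        have h4 : L *ᵥ (Pi.single (a : V) 1 : V → F) = 0 := by
          funext d
          rw [mulVec_single_one]
          change L d a = 0
          by_contra h5
          exact (mem_filter.1 a.2).2.1 ⟨d, h5⟩
        rw [h4, smul_zero]
      have h5 : ∑ i : Ie, L *ᵥ (c (Sum.inr (Sum.inr i)) • ys i) = 0 := by
        refine sum_eq_zero fun i _ => ?_
        rw [mulVec_smul, (hgen i (mem_filter.1 i.2).1 _ (hy2 i i.2) (hy3 i i.2)).2.1,
          smul_zero]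
      rw [h3, h5, add_zero]
    have hBx : B *ᵥ x = z := by
      rw [hxz, mulVec_add, mulVec_mulVec, hBL, zero_mulVec, zero_add]
      exact BR_eq hBR hLz
    have hzX : ∀ v, v ∉ X → z v = 0 := by
      intro v hv
      rw [hz, Pi.add_apply, Finset.sum_apply, Finset.sum_apply]
      rw [sum_eq_zero, sum_eq_zero, add_zero]
      · intro i _
        rw [Pi.smul_apply]
        have h3 : ys i v = 0 := by
          by_contra h4
          exact hv ((hcm _ _).1 (hy2 i i.2 v h4)).1
        rw [h3, smul_zero]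
      · intro a _
        rw [Pi.smul_apply, Pi.single_apply, if_neg, smul_zero]
        intro h3
        exact hv (h3 ▸ (mem_filter.1 a.2).1)
    have hx0 : x = 0 := hX x hxX fun v hv => by rw [hBx]; exact hzX v hv
    have hz0 : z = 0 := by
      rw [← hBx, hx0, mulVec_zero]
    have hca : ∀ a : A, c (Sum.inr (Sum.inl a)) = 0 := by
      intro a
      have h3 := congrFun hz0 (a : V)
      rw [hz, Pi.add_apply, Finset.sum_apply, Finset.sum_apply, sum_eq_single a,
        sum_eq_zero, add_zero, Pi.smul_apply, Pi.single_eq_same, smul_eq_mul, mul_one] at h3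
      · exact h3
      · intro i _
        rw [Pi.smul_apply]
        have h5 : ys i a = 0 := by
          by_contra h4
          exact (mem_filter.1 a.2).2.1 ((hcm _ _).1 (hy2 i i.2 a h4)).2.1
        rw [h5, smul_zero]
      · intro b _ hb
        rw [Pi.smul_apply, Pi.single_apply, if_neg, smul_zero]
        exact fun h5 => hb (Subtype.ext h5.symm)
      · exact fun h4 => absurd (mem_univ _) h4
    have hci : ∀ i : Ie, c (Sum.inr (Sum.inr i)) = 0 := by
      intro i
      obtain ⟨v, hv⟩ : ∃ v, ys i v ≠ 0 := by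
        by_contra h4
        push Not at h4
        exact hy1 i i.2 (funext h4)
      have hvc := (hcm _ _).1 (hy2 i i.2 v hv)
      have h3 := congrFun hz0 v
      rw [hz, Pi.add_apply, Finset.sum_apply, Finset.sum_apply, sum_eq_zero,
        sum_eq_single i, zero_add, Pi.smul_apply, smul_eq_mul] at h3
      · exact (mul_eq_zero.1 h3).resolve_right hv
      · intro l _ hl
        rw [Pi.smul_apply]
        have h5 : ys l v = 0 := by
          by_contra h4
          have h6 := ((hcm _ _).1 (hy2 l l.2 v h4)).2.2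
          exact hl (Subtype.ext (h6.symm.trans hvc.2.2))
        rw [h5, smul_zero]
      · exact fun h4 => absurd (mem_univ _) h4
      · intro a _
        rw [Pi.smul_apply, Pi.single_apply, if_neg, smul_zero]
        intro h5
        exact (mem_filter.1 a.2).2.1 (h5 ▸ hvc.2.1)
    have ht0 : t = 0 := by
      have h3 : Lᵀ *ᵥ t = 0 := by
        rw [hx0, hz0, mulVec_zero, add_zero] at hxz
        exact hxz.symm
      have h4 : U *ᵥ (Lᵀ *ᵥ t) = -t := by
        rw [mulVec_mulVec, hUL, neg_mulVec, one_mulVec]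
      rw [h3, mulVec_zero] at h4
      exact neg_eq_zero.1 h4.symm
    rintro (d | a | i)
    · exact congrFun ht0 d
    · exact hca a
    · exact hci i
  have hcard := hli.fintype_card_le_finrank
  rw [Module.finrank_fintype_fun_eq_card, Fintype.card_sum, Fintype.card_sum,
    Fintype.card_coe, Fintype.card_coe, Fintype.card_coe] at hcard
  have h3 : Ie.card + Io.card = I.card := card_filter_add_card_filter_not _
  have h4 : 0 < Fintype.card Dl := Fintype.card_pos
  omega

end Main

end Pool.Agent.FRC
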