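import Mathlib

/-!
# Skew matrices of graphs with a unique perfect matching (or a unique one of least weight) are nonsingular

`Col σ`: the permutation `σ` has a 2-colouring `χ` with `χ (σ v) ≠ χ v` for all `v`; that is, all cycles have even length.
`det_eq_sum_col`: in the determinant of a skew matrix with zero diagonal only the permutations with `Col` count.
-/

set_option autoImplicit false

namespace Pool.Agent.FRC.Uni

open Equiv Equiv.Perm Finset

variable {V : Type*} [Fintype V] [DecidableEq V]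

/-- all cycles are even -/
def Col (σ : Perm V) : Prop := ∃ χ : V → Bool, ∀ v, χ (σ v) = !χ v

omit [Fintype V] [DecidableEq V] in
theorem Col.ne {σ : Perm V} (h : Col σ) (v : V) : σ v ≠ v := by
  obtain ⟨χ, hχ⟩ := h
  intro e
  have h1 := hχ v
  rw [e] at h1
  cases hx : χ v <;> rw [hx] at h1 <;> exact absurd h1 (by decide)

/-- a fixed point free permutation all of whose cycles are even has a 2-colouring -/
theorem col_of_even {σ : Perm V} (hf : ∀ v, σ v ≠ v) (he : ∀ v, Even (σ.cycleOf v).support.card) :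
    Col σ := by
  classical
  have hper : ∀ (r : V) (n : ℕ), (σ ^ n) r = r → Even n := by
    intro r n hn
    have hc : (σ.cycleOf r).IsCycle := isCycle_cycleOf σ (hf r)
    have h1 : ((σ.cycleOf r) ^ n) r = r := by rw [cycleOf_pow_apply_self, hn]
    have h2 : (σ.cycleOf r) r ≠ r := by rw [cycleOf_apply_self]; exact hf r
    have h3 : (σ.cycleOf r) ^ n = 1 := (hc.pow_eq_one_iff' h2).2 h1
    have h4 : orderOf (σ.cycleOf r) ∣ n := orderOf_dvd_of_pow_eq_one h3
    rw [hc.orderOf] at h4
    exact (he r).trans_dvd h4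
  obtain ⟨rep, hrep1, hrep2⟩ : ∃ rep : V → V, (∀ v, σ.SameCycle (rep v) v) ∧ ∀ v, rep (σ v) = rep v := by
    refine ⟨fun v => (Quotient.mk (SameCycle.setoid σ) v).out, fun v => ?_, fun v => ?_⟩
    · exact @Quotient.exact _ (SameCycle.setoid σ) _ _ (Quotient.out_eq (Quotient.mk (SameCycle.setoid σ) v))
    · have h1 : Quotient.mk (SameCycle.setoid σ) (σ v) = Quotient.mk (SameCycle.setoid σ) v :=
        Quotient.sound ((sameCycle_apply_left).2 (SameCycle.refl σ v))
      simp only [h1]
  have hex : ∀ v, ∃ n : ℕ, (σ ^ n) (rep v) = v := fun v => by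
    obtain ⟨n, -, hn⟩ := (hrep1 v).exists_pow_eq'
    exact ⟨n, hn⟩
  choose nn hnn using hex
  refine ⟨fun v => decide (Even (nn v)), fun v => ?_⟩
  have h1 : (σ ^ (nn (σ v))) (rep v) = σ v := by
    have := hnn (σ v)
    rwa [hrep2] at this
  have h2 : (σ ^ (nn v + 1)) (rep v) = σ v := by
    rw [pow_succ', Perm.mul_apply, hnn v]
  have h3 : Even (nn (σ v)) ↔ Even (nn v + 1) := by
    rcases le_total (nn (σ v)) (nn v + 1) with hle | hle
    · obtain ⟨d, hd⟩ := Nat.exists_eq_add_of_le hle
      rw [hd] at h2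
      have h4 : (σ ^ (nn (σ v))) ((σ ^ d) (rep v)) = (σ ^ (nn (σ v))) (rep v) := by
        rw [← Perm.mul_apply, ← pow_add, h2, h1]
      have h5 := hper _ _ ((σ ^ (nn (σ v))).injective h4)
      rw [hd, Nat.even_add]
      tauto
    · obtain ⟨d, hd⟩ := Nat.exists_eq_add_of_le hle
      rw [hd] at h1
      have h4 : (σ ^ (nn v + 1)) ((σ ^ d) (rep v)) = (σ ^ (nn v + 1)) (rep v) := by
        rw [← Perm.mul_apply, ← pow_add, h1, h2]
      have h5 := hper _ _ ((σ ^ (nn v + 1)).injective h4)
      rw [hd, Nat.even_add (n := d)]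
      tauto
  rw [Nat.even_add_one] at h3
  by_cases h : Even (nn v)
  · have h' : ¬ Even (nn (σ v)) := fun hh => (h3.1 hh) h
    simp [h, h']
  · have h' : Even (nn (σ v)) := h3.2 h
    simp [h, h']

/-- the permutation `σ` with the cycle of `v` reversed -/
def rev (σ : Perm V) (v : V) : Perm V := σ * (σ.cycleOf v)⁻¹ * (σ.cycleOf v)⁻¹

omit [Fintype V] [DecidableEq V] in
theorem sc_inv_right {σ : Perm V} {x y : V} : σ.SameCycle x (σ⁻¹ y) ↔ σ.SameCycle x y :=
  sameCycle_symm_apply_right

theorem rev_apply (σ : Perm V) (v x : V) : rev σ v x = if σ.SameCycle v x then σ⁻¹ x else σ x := by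
  unfold rev
  rw [Perm.mul_apply, Perm.mul_apply, cycleOf_inv]
  by_cases h : σ.SameCycle v x
  · have h' : σ⁻¹.SameCycle v x := sameCycle_inv.2 h
    have h2 : σ⁻¹.SameCycle v (σ⁻¹ x) := sameCycle_apply_right.2 h'
    have e1 : (σ⁻¹.cycleOf v) x = σ⁻¹ x := by rw [cycleOf_apply, if_pos h']
    have e2 : (σ⁻¹.cycleOf v) (σ⁻¹ x) = σ⁻¹ (σ⁻¹ x) := by rw [cycleOf_apply, if_pos h2]
    rw [if_pos h, e1, e2]
    simp
  · have h' : ¬ σ⁻¹.SameCycle v x := fun hh => h (sameCycle_inv.1 hh)
    have e1 : (σ⁻¹.cycleOf v) x = x := by rw [cycleOf_apply, if_neg h']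
    rw [if_neg h, e1, e1]

theorem sign_rev (σ : Perm V) (v : V) : sign (rev σ v) = sign σ := by
  unfold rev
  rw [Perm.sign_mul, Perm.sign_mul, Perm.sign_inv, mul_assoc, Int.units_mul_self, mul_one]

omit [DecidableEq V] in
theorem sameCycle_of_step {σ τ : Perm V} (h : ∀ x, σ.SameCycle x (τ x)) {x y : V}
    (hxy : τ.SameCycle x y) : σ.SameCycle x y := by
  obtain ⟨n, -, rfl⟩ := hxy.exists_pow_eq'
  induction n with
  | zero => exact SameCycle.refl σ x
  | succ n ih =>
    rw [pow_succ', Perm.mul_apply]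
    exact (ih (sameCycle_pow_right.2 (SameCycle.refl τ x))).trans (h _)

theorem sameCycle_rev (σ : Perm V) (v x y : V) : (rev σ v).SameCycle x y ↔ σ.SameCycle x y := by
  have h1 : ∀ x, σ.SameCycle x (rev σ v x) := by
    intro x
    rw [rev_apply]
    split_ifs
    · exact sc_inv_right.2 (SameCycle.refl σ x)
    · exact sameCycle_apply_right.2 (SameCycle.refl σ x)
  constructor
  · exact sameCycle_of_step h1
  · refine sameCycle_of_step (σ := rev σ v) fun x => ?_
    by_cases h : σ.SameCycle v x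
    · have h2 : σ.SameCycle v (σ x) := sameCycle_apply_right.2 h
      have h3 : rev σ v (σ x) = x := by
        rw [rev_apply, if_pos h2]
        simp
      have h4 : (rev σ v).SameCycle (σ x) x := by
        conv_rhs => rw [← h3]
        exact sameCycle_apply_right.2 (SameCycle.refl _ _)
      exact h4.symm
    · have h3 : rev σ v x = σ x := by rw [rev_apply, if_neg h]
      rw [← h3]
      exact sameCycle_apply_right.2 (SameCycle.refl _ _)

theorem rev_rev (σ : Perm V) (v : V) : rev (rev σ v) v = σ := by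
  ext x
  rw [rev_apply]
  by_cases h : σ.SameCycle v x
  · rw [if_pos ((sameCycle_rev σ v v x).2 h)]
    have h2 : σ.SameCycle v (σ x) := sameCycle_apply_right.2 h
    have h3 : rev σ v (σ x) = x := by
      rw [rev_apply, if_pos h2]
      simp
    rw [Perm.inv_eq_iff_eq]
    exact h3.symm
  · rw [if_neg fun hh => h ((sameCycle_rev σ v v x).1 hh), rev_apply, if_neg h]

/-- the points of the cycle of `v` -/
def cy (σ : Perm V) (v : V) : Finset V := univ.filter fun x => σ.SameCycle v x

theorem mem_cy {σ : Perm V} {v x : V} : x ∈ cy σ v ↔ σ.SameCycle v x := by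
  simp [cy]

theorem cy_rev (σ : Perm V) (v x : V) : cy (rev σ v) x = cy σ x := by
  ext y
  rw [mem_cy, mem_cy, sameCycle_rev]

theorem cy_eq_support {σ : Perm V} {v : V} (hv : σ v ≠ v) : cy σ v = (σ.cycleOf v).support := by
  ext x
  rw [mem_cy, mem_support_cycleOf_iff]
  exact ⟨fun h => ⟨h, mem_support.2 hv⟩, fun h => h.1⟩

/-- the points on odd cycles -/
def oddPts (σ : Perm V) : Finset V := univ.filter fun v => Odd (cy σ v).card

theorem mem_oddPts {σ : Perm V} {v : V} : v ∈ oddPts σ ↔ Odd (cy σ v).card := by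
  simp [oddPts]

theorem oddPts_rev (σ : Perm V) (v : V) : oddPts (rev σ v) = oddPts σ := by
  unfold oddPts
  simp only [cy_rev]

omit [Fintype V] [DecidableEq V] in
theorem choose_congr {s t : Finset V} (hs : s.Nonempty) (ht : t.Nonempty) (h : s = t) :
    hs.choose = ht.choose := by
  subst h
  rfl

open Classical in
/-- reverse an odd cycle -/
noncomputable def flip (σ : Perm V) : Perm V :=
  if h : (oddPts σ).Nonempty then rev σ h.choose else σ

theorem flip_of {σ : Perm V} (h : (oddPts σ).Nonempty) : flip σ = rev σ h.choose := by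
  unfold flip
  rw [dif_pos h]

theorem oddPts_flip (σ : Perm V) : oddPts (flip σ) = oddPts σ := by
  by_cases h : (oddPts σ).Nonempty
  · rw [flip_of h, oddPts_rev]
  · unfold flip
    rw [dif_neg h]

theorem flip_flip (σ : Perm V) : flip (flip σ) = σ := by
  by_cases h : (oddPts σ).Nonempty
  · have h' : (oddPts (flip σ)).Nonempty := by rwa [oddPts_flip]
    rw [flip_of h', choose_congr h' h (oddPts_flip σ), flip_of h, rev_rev]
  · unfold flip
    rw [dif_neg h, dif_neg h]

section det

variable {R : Type*} [CommRing R]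

/-- reversing a cycle multiplies the product of a skew matrix by `-1` to the length -/
theorem prod_rev (B : V → V → R) (hB : ∀ u v, B u v = - B v u) (σ : Perm V) (v : V) :
    ∏ x, B (rev σ v x) x = (-1) ^ (cy σ v).card * ∏ x, B (σ x) x := by
  rw [← Finset.prod_mul_prod_compl (cy σ v) (fun x => B (rev σ v x) x),
    ← Finset.prod_mul_prod_compl (cy σ v) (fun x => B (σ x) x), ← mul_assoc]
  congr 1
  · have h1 : ∏ x ∈ cy σ v, B (rev σ v x) x = ∏ x ∈ cy σ v, (-1) * B x (σ⁻¹ x) := by
      refine prod_congr rfl fun x hx => ?_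
      rw [rev_apply, if_pos (mem_cy.1 hx), hB]
      ring
    rw [h1, prod_mul_distrib, prod_const]
    congr 1
    refine prod_bij' (fun x _ => σ⁻¹ x) (fun x _ => σ x) ?_ ?_ ?_ ?_ ?_
    · intro x hx
      exact mem_cy.2 (sc_inv_right.2 (mem_cy.1 hx))
    · intro x hx
      exact mem_cy.2 (sameCycle_apply_right.2 (mem_cy.1 hx))
    · intro x _
      simp
    · intro x _
      simp
    · intro x _
      simp
  · refine prod_congr rfl fun x hx => ?_
    rw [rev_apply, if_neg fun h => (mem_compl.1 hx) (mem_cy.2 h)]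

theorem not_col_odd {σ : Perm V} (hf : ∀ v, σ v ≠ v) (h : ¬ Col σ) : (oddPts σ).Nonempty := by
  by_contra hne
  refine h (col_of_even hf fun v => ?_)
  rw [← cy_eq_support (hf v)]
  by_contra ho
  exact hne ⟨v, mem_oddPts.2 (Nat.not_even_iff_odd.1 ho)⟩

theorem not_col_of_odd {σ : Perm V} (h : (oddPts σ).Nonempty) : ¬ Col σ := by
  rintro ⟨χ, hχ⟩
  obtain ⟨v, hv⟩ := h
  have hf : σ v ≠ v := Col.ne ⟨χ, hχ⟩ v
  have h1 : Odd (cy σ v).card := mem_oddPts.1 hv
  rw [cy_eq_support hf] at h1
  have hc : (σ.cycleOf v).IsCycle := isCycle_cycleOf σ hf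
  have h2 : ∀ n : ℕ, χ ((σ ^ n) v) = (decide (Odd n)).xor (χ v) := by
    intro n
    induction n with
    | zero => simp
    | succ n ih =>
      rw [pow_succ', Perm.mul_apply, hχ, ih]
      by_cases ho : Odd n
      · have : ¬ Odd (n + 1) := by rw [Nat.not_odd_iff_even]; exact ho.add_one
        simp [ho, this]
      · have : Odd (n + 1) := by rw [Nat.not_odd_iff_even] at ho; exact ho.add_one
        simp [ho, this]
  have h3 : (σ ^ (σ.cycleOf v).support.card) v = v := by
    rw [← cycleOf_pow_apply_self, ← hc.orderOf, pow_orderOf_eq_one]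
    rfl
  have h4 := h2 (σ.cycleOf v).support.card
  rw [h3] at h4
  simp [h1] at h4

open Classical in
/-- **Odd cycles cancel.** -/
theorem det_eq_sum_col (B : Matrix V V R) (h0 : ∀ v, B v v = 0) (hB : ∀ u v, B u v = - B v u) :
    B.det = ∑ σ ∈ univ.filter (fun σ : Perm V => Col σ), ((sign σ : ℤ) : R) * ∏ x, B (σ x) x := by
  rw [Matrix.det_apply']
  rw [← Finset.sum_filter_add_sum_filter_not univ (fun σ : Perm V => Col σ)]
  rw [add_eq_left]
  refine Finset.sum_involution (fun σ _ => flip σ) ?_ ?_ ?_ ?_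
  · intro σ hσ
    have hσ' : ¬ Col σ := by simpa using hσ
    by_cases hf : ∀ v, σ v ≠ v
    · have ho := not_col_odd hf hσ'
      rw [flip_of ho, sign_rev, prod_rev B hB]
      have h1 : Odd (cy σ ho.choose).card := mem_oddPts.1 ho.choose_spec
      rw [h1.neg_one_pow]
      ring
    · push Not at hf
      obtain ⟨v, hv⟩ := hf
      have e1 : ∏ x, B (σ x) x = 0 := prod_eq_zero (mem_univ v) (by rw [hv]; exact h0 v)
      have e2 : ∏ x, B (flip σ x) x = 0 := by
        by_cases ho : (oddPts σ).Nonempty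
        · rw [flip_of ho, prod_rev B hB, e1, mul_zero]
        · unfold flip
          rw [dif_neg ho, e1]
      rw [e1, e2]
      ring
  · intro σ hσ hne heq
    have hσ' : ¬ Col σ := by simpa using hσ
    have hf : ∀ v, σ v ≠ v := by
      intro v hv
      exact hne (by rw [prod_eq_zero (mem_univ v) (by rw [hv]; exact h0 v), mul_zero])
    have ho := not_col_odd hf hσ'
    rw [flip_of ho] at heq
    have h1 : Odd (cy σ ho.choose).card := mem_oddPts.1 ho.choose_spec
    obtain ⟨v, hv⟩ : ∃ v, v = ho.choose := ⟨_, rfl⟩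
    rw [← hv] at heq h1
    -- `σ⁻¹ = σ` on the cycle, so the cycle has two points
    have h2 : σ (σ v) = v := by
      have := congrArg (fun τ : Perm V => τ (σ v)) heq
      simp only [rev_apply] at this
      rw [if_pos (sameCycle_apply_right.2 (SameCycle.refl σ v))] at this
      simpa using this.symm
    have hc : (σ.cycleOf v).IsCycle := isCycle_cycleOf σ (hf v)
    have h3 : ((σ.cycleOf v) ^ 2) v = v := by
      rw [cycleOf_pow_apply_self, pow_two, Perm.mul_apply, h2]
    have h4 : (σ.cycleOf v) v ≠ v := by rw [cycleOf_apply_self]; exact hf v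
    have h5 : (σ.cycleOf v) ^ 2 = 1 := (hc.pow_eq_one_iff' h4).2 h3
    have h6 := orderOf_dvd_of_pow_eq_one h5
    rw [hc.orderOf, ← cy_eq_support (hf v)] at h6
    rcases (Nat.dvd_prime Nat.prime_two).1 h6 with h | h
    · have h7 : v ∈ cy σ v := mem_cy.2 (SameCycle.refl σ v)
      have h8 : σ v ∈ cy σ v := mem_cy.2 (sameCycle_apply_right.2 (SameCycle.refl σ v))
      obtain ⟨a, ha⟩ := card_eq_one.1 h
      rw [ha, mem_singleton] at h7 h8
      exact hf v (by rw [h8, h7])
    · rw [h] at h1
      exact absurd h1 (by decide)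
  · intro σ hσ
    have hσ' : ¬ Col σ := by simpa using hσ
    rw [mem_filter]
    refine ⟨mem_univ _, ?_⟩
    by_cases ho : (oddPts σ).Nonempty
    · exact not_col_of_odd (by rwa [oddPts_flip])
    · unfold flip
      rwa [dif_neg ho]
  · intro σ _
    exact flip_flip σ

/-! ### The unique perfect matching of least weight -/

omit [Fintype V] in
/-- the two matchings of a 2-coloured permutation -/
def mat (σ : Perm V) (χ : V → Bool) (v : V) : V := if χ v then σ v else σ⁻¹ v

omit [Fintype V] [DecidableEq V] in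
theorem mat_mat {σ : Perm V} {χ : V → Bool} (hχ : ∀ v, χ (σ v) = !χ v) (v : V) :
    mat σ χ (mat σ χ v) = v := by
  have hχ' : ∀ v, χ (σ⁻¹ v) = !χ v := by
    intro v
    have := hχ (σ⁻¹ v)
    rw [show σ (σ⁻¹ v) = v by simp] at this
    rw [this]
    simp
  unfold mat
  by_cases h : χ v = true
  · have h1 : ¬ (χ (σ v) = true) := by rw [hχ, h]; decide
    rw [if_pos h, if_neg h1]
    simp
  · have h1 : χ (σ⁻¹ v) = true := by
      rw [hχ']
      simpa using h
    rw [if_neg h, if_pos h1]
    simp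

omit [Fintype V] [DecidableEq V] in
theorem mat_ne {σ : Perm V} {χ : V → Bool} (hχ : ∀ v, χ (σ v) = !χ v) (v : V) :
    mat σ χ v ≠ v := by
  have hf : ∀ v, σ v ≠ v := fun v => Col.ne ⟨χ, hχ⟩ v
  unfold mat
  split_ifs
  · exact hf v
  · intro h
    exact hf v (by conv_lhs => rw [← h]; simp)

omit [DecidableEq V] in
theorem sum_mat {σ : Perm V} {χ : V → Bool} (hχ : ∀ v, χ (σ v) = !χ v) (w : V → V → ℕ)
    (hw : ∀ u v, w u v = w v u) :
    ∑ v, w v (mat σ χ v) = 2 * ∑ v, (if χ v then w v (σ v) else 0) := by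
  have h1 : ∀ v, w v (mat σ χ v) = (if χ v then w v (σ v) else 0) + (if χ v then 0 else w v (σ⁻¹ v)) := by
    intro v
    unfold mat
    split_ifs <;> simp
  rw [Finset.sum_congr rfl fun v _ => h1 v, Finset.sum_add_distrib, two_mul]
  congr 1
  rw [← Equiv.sum_comp σ (fun v => if χ v then 0 else w v (σ⁻¹ v))]
  refine Finset.sum_congr rfl fun v _ => ?_
  rw [hχ v, show σ⁻¹ (σ v) = v by simp, hw]
  cases χ v <;> simp

omit [DecidableEq V] in
theorem sum_two {σ : Perm V} {χ : V → Bool} (hχ : ∀ v, χ (σ v) = !χ v) (w : V → V → ℕ)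
    (hw : ∀ u v, w u v = w v u) :
    ∑ v, w v (mat σ χ v) + ∑ v, w v (mat σ (fun v => !χ v) v) = 2 * ∑ v, w v (σ v) := by
  rw [sum_mat hχ w hw, sum_mat (χ := fun v => !χ v) (fun v => by simp [hχ v]) w hw, ← mul_add,
    ← Finset.sum_add_distrib]
  congr 1
  refine Finset.sum_congr rfl fun v _ => ?_
  cases χ v <;> simp

/-- `m` is a perfect matching (a fixed point free involution) which uses only entries `b v (m v) ≠ 0` -/
structure Mt {V R : Type*} [Zero R] (b : V → V → R) (m : V → V) : Prop where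
  invol : ∀ v, m (m v) = v
  ne : ∀ v, m v ≠ v
  supp : ∀ v, b v (m v) ≠ 0

omit [Fintype V] [DecidableEq V] in
/-- the permutation of a matching -/
def Mt.perm {b : V → V → R} {m : V → V} (h : Mt b m) : Perm V := ⟨m, m, h.invol, h.invol⟩

theorem Mt.col {b : V → V → R} {m : V → V} (h : Mt b m) : Col h.perm := by
  refine col_of_even (fun v => h.ne v) fun v => ?_
  have hc : (h.perm.cycleOf v).IsCycle := isCycle_cycleOf h.perm (h.ne v)
  have h3 : ((h.perm.cycleOf v) ^ 2) v = v := by
    rw [cycleOf_pow_apply_self, pow_two, Perm.mul_apply]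
    exact h.invol v
  have h4 : (h.perm.cycleOf v) v ≠ v := by rw [cycleOf_apply_self]; exact h.ne v
  have h5 : (h.perm.cycleOf v) ^ 2 = 1 := (hc.pow_eq_one_iff' h4).2 h3
  have h6 := orderOf_dvd_of_pow_eq_one h5
  rw [hc.orderOf] at h6
  rcases (Nat.dvd_prime Nat.prime_two).1 h6 with h | h
  · exact absurd h (card_support_ne_one _)
  · rw [h]
    decide

omit [Fintype V] [DecidableEq V] in
theorem mt_mat {b : V → V → R} (hb : ∀ u v, b u v = - b v u) {σ : Perm V} {χ : V → Bool}
    (hχ : ∀ v, χ (σ v) = !χ v) (hσ : ∀ v, b (σ v) v ≠ 0) : Mt b (mat σ χ) := by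
  refine ⟨mat_mat hχ, mat_ne hχ, fun v => ?_⟩
  unfold mat
  split_ifs
  · intro h
    apply hσ v
    rw [hb, h, neg_zero]
  · have := hσ (σ⁻¹ v)
    rwa [show σ (σ⁻¹ v) = v by simp] at this

/-- The matrix `b u v * X ^ w u v`. -/
noncomputable def wm (b : V → V → R) (w : V → V → ℕ) : Matrix V V (Polynomial R) :=
  Matrix.of fun u v => Polynomial.C (b u v) * Polynomial.X ^ w u v

open Classical in
/-- **A unique perfect matching of least weight gives the lowest coefficient of the determinant.** -/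
theorem coeff_det_wm [IsDomain R] (b : V → V → R) (h0 : ∀ v, b v v = 0) (hb : ∀ u v, b u v = - b v u)
    (w : V → V → ℕ) (hw : ∀ u v, w u v = w v u) {m : V → V} (hm : Mt b m)
    (hmin : ∀ m', Mt b m' → m' ≠ m → ∑ v, w v (m v) < ∑ v, w v (m' v)) :
    (wm b w).det.coeff (∑ v, w v (m v)) = ((sign hm.perm : ℤ) : R) * ∏ v, b (m v) v := by
  rw [det_eq_sum_col (wm b w) (fun v => by simp [wm, h0]) (fun u v => by
    simp only [wm, Matrix.of_apply]
    rw [hb u v, hw u v, Polynomial.C_neg, neg_mul])]
  rw [Polynomial.finsetSum_coeff]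
  have hterm : ∀ σ : Perm V, (((sign σ : ℤ) : Polynomial R) * ∏ x, wm b w (σ x) x) =
      Polynomial.C (((sign σ : ℤ) : R) * ∏ x, b (σ x) x) * Polynomial.X ^ (∑ x, w x (σ x)) := by
    intro σ
    simp only [wm, Matrix.of_apply]
    rw [Finset.prod_mul_distrib, Finset.prod_pow_eq_pow_sum, Polynomial.C_mul, ← map_prod]
    have e : ∑ x, w (σ x) x = ∑ x, w x (σ x) := Finset.sum_congr rfl fun x _ => hw _ _
    rw [e]
    simp only [map_intCast]
    ring
  rw [Finset.sum_eq_single hm.perm]
  · rw [hterm, Polynomial.coeff_C_mul_X_pow]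
    exact if_pos rfl
  · intro σ hσ hne
    rw [hterm, Polynomial.coeff_C_mul_X_pow]
    have hc : Col σ := by simpa using hσ
    obtain ⟨χ, hχ⟩ := hc
    by_cases hs : ∀ v, b (σ v) v ≠ 0
    · rw [if_neg]
      have h1 : Mt b (mat σ χ) := mt_mat hb hχ hs
      have h2 : Mt b (mat σ (fun v => !χ v)) := mt_mat hb (fun v => by simp [hχ v]) hs
      have h3 := sum_two hχ w hw
      have h4 : ∀ m', Mt b m' → ∑ v, w v (m v) ≤ ∑ v, w v (m' v) := by
        intro m' hm'
        by_cases e : m' = m
        · rw [e]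
        · exact (hmin m' hm' e).le
      have h5 : ∑ v, w v (m v) < ∑ v, w v (σ v) := by
        by_contra hcon
        have h6 := h4 _ h1
        have h7 := h4 _ h2
        have e1 : mat σ χ = m := by
          by_contra e
          have := hmin _ h1 e
          omega
        have e2 : mat σ (fun v => !χ v) = m := by
          by_contra e
          have := hmin _ h2 e
          omega
        apply hne
        ext v
        show σ v = m v
        cases hx : χ v
        · rw [← e2]
          simp [mat, hx]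
        · rw [← e1]
          simp [mat, hx]
      omega
    · push Not at hs
      obtain ⟨v, hv⟩ := hs
      have e : ∏ x, b (σ x) x = 0 := Finset.prod_eq_zero (Finset.mem_univ v) hv
      rw [e, mul_zero]
      split_ifs <;> rfl
  · intro h
    exact absurd (by simpa using hm.col) h

/-- A unique perfect matching of least weight: the determinant is not zero. -/
theorem det_wm_ne_zero [IsDomain R] (b : V → V → R) (h0 : ∀ v, b v v = 0) (hb : ∀ u v, b u v = - b v u)
    (w : V → V → ℕ) (hw : ∀ u v, w u v = w v u) {m : V → V} (hm : Mt b m)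
    (hmin : ∀ m', Mt b m' → m' ≠ m → ∑ v, w v (m v) < ∑ v, w v (m' v)) : (wm b w).det ≠ 0 := by
  intro h
  have h1 := coeff_det_wm b h0 hb w hw hm hmin
  rw [h, Polynomial.coeff_zero] at h1
  have h2 : (((sign hm.perm : ℤ) : R) * ∏ v, b (m v) v) ≠ 0 := by
    refine mul_ne_zero ?_ (Finset.prod_ne_zero_iff.2 fun v _ => ?_)
    · rcases Int.units_eq_one_or (sign hm.perm) with e | e <;> rw [e] <;> simp
    · rw [hb]
      exact neg_ne_zero.2 (hm.supp v)
  exact h2 h1.symm

/-- A unique perfect matching: the determinant is not zero. -/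
theorem det_ne_zero_of_unique [IsDomain R] (b : Matrix V V R) (h0 : ∀ v, b v v = 0)
    (hb : ∀ u v, b u v = - b v u) {m : V → V} (hm : Mt b m) (hu : ∀ m', Mt b m' → m' = m) :
    b.det ≠ 0 := by
  have h1 := det_wm_ne_zero b h0 hb (fun _ _ => 0) (fun _ _ => rfl) hm fun m' hm' hne =>
    absurd (hu m' hm') hne
  have h2 : wm b (fun _ _ => 0) = (Polynomial.C : R →+* Polynomial R).mapMatrix b := by
    ext1 u v
    simp [wm]
  rw [h2, ← RingHom.map_det] at h1
  exact fun h => h1 (by rw [h, map_zero])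

end det

end Pool.Agent.FRC.Uni

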